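import Pool.Agent.Lib.MP_5d4057_al.Comb.Geo

/-!
# Arithmetic: the entry `λ 0 0` of an element of a deep congruence subgroup is large
-/

namespace Pool.Agent.Lib.MP_5d4057_al.Comb

open Matrix Pool.Agent.Lib.MP_5d4057_al Pool.Agent.Lib.MP_5d4057_al.Hyb ComplexOrder

theorem exists_extend {m : ℕ} (l : SUGroup (m + 1)) (h0 : l.toMatrix 0 0 = 1)
    (h1 : ∀ i : Fin (m + 1), l.toMatrix i.succ 0 = 0) : ∃ x : SUGroup m, l = extend m x := by
  have hrow : ∀ j : Fin (m + 1), l.toMatrix 0 j.succ = 0 := by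
    intro j
    have h2 := congrFun (congrFun (pres l) 0) j.succ
    rw [J_succ, dsum_zero_succ] at h2
    rw [Matrix.mul_apply] at h2
    have h3 : ∀ i : Fin (m + 1 + 1), (l.toMatrixᴴ * dsum 1 (J m)) 0 i = if i = 0 then 1 else 0 := by
      intro i
      rw [Matrix.mul_apply, Fin.sum_univ_succ]
      have h4 : ∀ a : Fin (m + 1), l.toMatrixᴴ 0 a.succ = 0 := by
        intro a
        rw [conjTranspose_apply, h1, star_zero]
      simp only [h4, zero_mul, Finset.sum_const_zero, add_zero, conjTranspose_apply, h0, star_one,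
        one_mul]
      refine Fin.cases ?_ (fun i => ?_) i
      · simp
      · rw [dsum_zero_succ, if_neg (Fin.succ_ne_zero i)]
    simp only [h3, ite_mul, one_mul, zero_mul, Finset.sum_ite_eq', Finset.mem_univ, if_true] at h2
    exact h2
  set A : Matrix (Fin (m + 1)) (Fin (m + 1)) ℂ := Matrix.of fun i j => l.toMatrix i.succ j.succ
    with hA
  have hl : l.toMatrix = dsum 1 A := by
    ext i j
    refine Fin.cases ?_ (fun i => ?_) i <;> refine Fin.cases ?_ (fun j => ?_) j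
    · rw [h0, dsum_zero_zero]
    · rw [hrow, dsum_zero_succ]
    · rw [h1, dsum_succ_zero]
    · rw [dsum_succ_succ]
      rfl
  have hdet : A.det = 1 := by
    have h2 := det_toMatrix l
    rw [hl, det_dsum, one_mul] at h2
    exact h2
  have hpres : Aᴴ * J m * A = J m := by
    have h2 := pres l
    rw [hl, dsum_conjTranspose, J_succ, dsum_mul, dsum_mul] at h2
    exact (dsum_inj h2).2
  refine ⟨ofMatrix A hdet hpres, toMatrix_injective ?_⟩
  rw [extend_toMatrix, toMatrix_ofMatrix, hl]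

private theorem pd_bound {n : ℕ} (p : ℂ) (A : Matrix (Fin n) (Fin n) ℂ) (h : (dsum p A).PosDef)
    (c : Fin (n + 1) → ℂ) (hc : star c ⬝ᵥ (dsum p A *ᵥ c) = p) :
    ‖c 0‖ ≤ 1 ∧ (‖c 0‖ = 1 → ∀ i : Fin n, c i.succ = 0) := by
  have hp : 0 < p := by simpa using h.diag_pos (i := 0)
  have hA : A.PosDef := by
    have : A = (dsum p A).submatrix Fin.succ Fin.succ := by
      ext i j
      simp
    rw [this]
    exact h.submatrix (Fin.succ_injective _)
  set c' : Fin n → ℂ := fun i => c i.succ with hc'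
  have h1 : star (c 0) * (p * c 0) + star c' ⬝ᵥ (A *ᵥ c') = p := by
    have hx : c = Fin.cons (c 0) c' := (Fin.cons_self_tail c).symm
    rw [hx, dsum_mulVec_cons, dotProduct, Fin.sum_univ_succ] at hc
    exact hc
  have hp1 : 0 < p.re := (Complex.lt_def.1 hp).1
  have hp2 : p.im = 0 := (Complex.lt_def.1 hp).2.symm
  have h2 : (star (c 0) * (p * c 0)).re = p.re * ‖c 0‖ ^ 2 := by
    have : star (c 0) * (p * c 0) = p * (star (c 0) * c 0) := by ring
    rw [this, Complex.mul_re, star_mul_self_re, hp2, zero_mul, sub_zero]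
  have h3 := congrArg Complex.re h1
  rw [Complex.add_re, h2] at h3
  by_cases h0 : c' = 0
  · rw [h0] at h3
    simp only [Matrix.mulVec_zero, dotProduct_zero, Complex.zero_re, add_zero] at h3
    have h4 : ‖c 0‖ ^ 2 = 1 := by
      have : p.re * ‖c 0‖ ^ 2 = p.re * 1 := by rw [h3, mul_one]
      exact mul_left_cancel₀ hp1.ne' this
    refine ⟨?_, fun _ i => congrFun h0 i⟩
    nlinarith [norm_nonneg (c 0)]
  · have h4 : 0 < star c' ⬝ᵥ (A *ᵥ c') := hA.dotProduct_mulVec_pos h0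
    have h5 : 0 < (star c' ⬝ᵥ (A *ᵥ c')).re := (Complex.lt_def.1 h4).1
    have h6 : p.re * ‖c 0‖ ^ 2 < p.re * 1 := by linarith
    have h7 : ‖c 0‖ ^ 2 < 1 := lt_of_mul_lt_mul_left h6 hp1.le
    refine ⟨by nlinarith [norm_nonneg (c 0)], fun h8 => ?_⟩
    rw [h8] at h7
    norm_num at h7

theorem def_bound {n : ℕ} (p : ℂ) (A : Matrix (Fin n) (Fin n) ℂ)
    (h : (dsum p A).PosDef ∨ (-(dsum p A)).PosDef) (c : Fin (n + 1) → ℂ)
    (hc : star c ⬝ᵥ (dsum p A *ᵥ c) = p) :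
    ‖c 0‖ ≤ 1 ∧ (‖c 0‖ = 1 → ∀ i : Fin n, c i.succ = 0) := by
  rcases h with h | h
  · exact pd_bound p A h c hc
  · have h2 : -(dsum p A) = dsum (-p) (-A) := by
      ext i j
      refine Fin.cases ?_ (fun i => ?_) i <;> refine Fin.cases ?_ (fun j => ?_) j <;> simp
    rw [h2] at h
    refine pd_bound (-p) (-A) h c ?_
    rw [← h2, neg_mulVec, dotProduct_neg, hc]

/-- the product formula -/
theorem prod_ge {K : Subfield ℂ} (hcm : IsCM K) (a : K) (ha : IsIntegral ℤ (a : ℂ)) (ha0 : a ≠ 0)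
    {r : ℝ} (_ : 0 ≤ r) (h : ∀ τ : K →+* ℂ, (∀ x : K, τ x = x) ∨
      (∀ x : K, τ x = (starRingEnd ℂ) (x : ℂ)) ∨ ‖τ a‖ ≤ r) :
    1 ≤ ‖(a : ℂ)‖ ^ 2 * r ^ (Module.finrank ℚ K - 2) := by
  classical
  have hK : NumberField K := hcm.1
  have ha' : IsIntegral ℤ a := by
    have hinj : Function.Injective (K.subtype.toIntAlgHom) := K.subtype.injective
    exact (isIntegral_algHom_iff K.subtype.toIntAlgHom hinj).1 ha
  have hN : IsIntegral ℤ (Algebra.norm ℚ a) := Algebra.isIntegral_norm ℚ ha'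
  obtain ⟨z, hz⟩ := IsIntegrallyClosed.isIntegral_iff.1 hN
  have hz0 : z ≠ 0 := by
    rintro rfl
    rw [map_zero] at hz
    exact ha0 (Algebra.norm_eq_zero_iff.1 hz.symm)
  have hprod := Algebra.norm_eq_prod_embeddings ℚ ℂ a
  have h1 : 1 ≤ ∏ σ : K →ₐ[ℚ] ℂ, ‖σ a‖ := by
    rw [← norm_prod, ← hprod, ← hz]
    have h2 : algebraMap ℚ ℂ (algebraMap ℤ ℚ z) = (z : ℂ) := by simp
    rw [h2, Complex.norm_intCast]
    exact_mod_cast Int.one_le_abs hz0
  let σ1 : K →ₐ[ℚ] ℂ := K.subtype.toRatAlgHom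
  let σ2 : K →ₐ[ℚ] ℂ := ((starRingEnd ℂ).comp K.subtype).toRatAlgHom
  have hσ1 : ∀ x : K, σ1 x = x := fun x => rfl
  have hσ2 : ∀ x : K, σ2 x = (starRingEnd ℂ) (x : ℂ) := fun x => rfl
  have hne : σ1 ≠ σ2 := by
    intro h2
    obtain ⟨x, hx, hxx⟩ := hcm.2.1
    apply hxx
    have h3 := congrArg (fun σ : K →ₐ[ℚ] ℂ => σ ⟨x, hx⟩) h2
    exact h3.symm
  have h2 : ∏ σ : K →ₐ[ℚ] ℂ, ‖σ a‖ = ‖σ1 a‖ * (‖σ2 a‖ *
      ∏ σ ∈ (Finset.univ.erase σ1).erase σ2, ‖σ a‖) := by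
    rw [Finset.mul_prod_erase (Finset.univ.erase σ1) (fun σ : K →ₐ[ℚ] ℂ => ‖σ a‖)
        (Finset.mem_erase.2 ⟨hne.symm, Finset.mem_univ _⟩),
      Finset.mul_prod_erase Finset.univ (fun σ : K →ₐ[ℚ] ℂ => ‖σ a‖) (Finset.mem_univ _)]
  have hcard : ((Finset.univ.erase σ1).erase σ2).card = Module.finrank ℚ K - 2 := by
    rw [Finset.card_erase_of_mem (Finset.mem_erase.2 ⟨hne.symm, Finset.mem_univ _⟩),
      Finset.card_erase_of_mem (Finset.mem_univ _), Finset.card_univ, AlgHom.card]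
    rfl
  have h3 : ∏ σ ∈ (Finset.univ.erase σ1).erase σ2, ‖σ a‖ ≤ r ^ (Module.finrank ℚ K - 2) := by
    rw [← hcard, ← Finset.prod_const]
    refine Finset.prod_le_prod (fun σ _ => norm_nonneg _) fun σ hσ => ?_
    rw [Finset.mem_erase, Finset.mem_erase] at hσ
    rcases h (σ : K →+* ℂ) with h4 | h4 | h4
    · exact absurd (AlgHom.ext h4) hσ.2.1
    · exact absurd (AlgHom.ext h4) hσ.1
    · exact h4
  rw [h2, hσ1, hσ2, RCLike.norm_conj] at h1
  calc 1 ≤ ‖(a : ℂ)‖ * (‖(a : ℂ)‖ * ∏ σ ∈ (Finset.univ.erase σ1).erase σ2, ‖σ a‖) := h1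
    _ ≤ ‖(a : ℂ)‖ * (‖(a : ℂ)‖ * r ^ (Module.finrank ℚ K - 2)) := by gcongr
    _ = _ := by ring

/-- a third embedding -/
theorem exists_other {K : Subfield ℂ} (hcm : IsCM K) (hd : 2 < Module.finrank ℚ K) :
    ∃ τ : K →+* ℂ, ¬ (∀ x : K, τ x = x) ∧ ¬ (∀ x : K, τ x = (starRingEnd ℂ) (x : ℂ)) := by
  classical
  have hK : NumberField K := hcm.1
  by_contra hcon
  push Not at hcon
  let σ1 : K →ₐ[ℚ] ℂ := K.subtype.toRatAlgHom
  let σ2 : K →ₐ[ℚ] ℂ := ((starRingEnd ℂ).comp K.subtype).toRatAlgHom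
  have h1 : (Finset.univ : Finset (K →ₐ[ℚ] ℂ)) ⊆ {σ1, σ2} := by
    intro σ _
    rw [Finset.mem_insert, Finset.mem_singleton]
    by_cases h2 : ∀ x : K, (σ : K →+* ℂ) x = x
    · exact Or.inl (AlgHom.ext h2)
    · push Not at h2
      exact Or.inr (AlgHom.ext (hcon (σ : K →+* ℂ) h2))
  have h2 := Finset.card_le_card h1
  rw [Finset.card_univ, AlgHom.card] at h2
  have h3 : ({σ1, σ2} : Finset (K →ₐ[ℚ] ℂ)).card ≤ 2 := Finset.card_le_two
  omega

theorem isForm_nf {k : ℕ} {K : Subfield ℂ} {D : Matrix (Fin (k + 1)) (Fin (k + 1)) ℂ}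
    {HD : Matrix (Fin (k + 1)) (Fin (k + 1)) K} {μ : Fin 2 → ℂ} {q : Fin 2 → K} (hcm : IsCM K)
    (hn : IsNF k K D HD μ q) (b : Fin 2) :
    IsForm (k + 1) K (dsum (q b) HD) (dsum (μ b) D) where
  cm := hcm
  det := det_dsum_ne (hn.μ_ne b) hn.det
  form := by
    rw [dsum_map _ _ _ rfl, dsum_conjTranspose, J_succ, dsum_mul, dsum_mul, hn.form, mul_one,
      hn.q_eq]
  definite := by
    intro τ
    rw [dsum_map _ _ _ (map_zero τ)]
    exact hn.definite b τ

private theorem col_eq {n : ℕ} (G M : Matrix (Fin (n + 1)) (Fin (n + 1)) ℂ) :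
    (Gᴴ * M * G) 0 0 = star (fun i => G i 0) ⬝ᵥ (M *ᵥ fun i => G i 0) := by
  rw [Matrix.mul_assoc]
  rfl

/-- **Arithmetic.** -/
theorem entry_large {k : ℕ} {K : Subfield ℂ} {D : Matrix (Fin (k + 1)) (Fin (k + 1)) ℂ}
    {HD : Matrix (Fin (k + 1)) (Fin (k + 1)) K} {μ : Fin 2 → ℂ} {q : Fin 2 → K} (hcm : IsCM K)
    (hd : 2 < Module.finrank ℚ K) (hn : IsNF k K D HD μ q) (b : Fin 2) (n : ℕ) (hn1 : 1 ≤ n)
    (l : SUGroup (k + 1)) (hl : l ∈ level (k + 1) K (dsum (μ b) D) n) :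
    (∃ x : SUGroup k, l = extend k x) ∨
      4 * ((n : ℝ) / 2) ^ Module.finrank ℚ K ≤ ‖l.toMatrix 0 0 - 1‖ ^ 2 := by
  have hf := isForm_nf hcm hn b
  have hμ := hn.μ_ne b
  set B := dsum (μ b) D with hB
  have hBu : IsUnit B.det := isUnit_iff_ne_zero.2 hf.det
  have hE : EntriesIn K B l.toMatrix := fun i j => (hl.1.1 i j).1
  obtain ⟨G, hG, -, hGτ⟩ := exists_rat hf l hE
  have hBinv : B⁻¹ = dsum (μ b)⁻¹ D⁻¹ := dsum_inv _ _ hμ hn.det
  have h00 : ∀ A : Matrix (Fin (k + 1 + 1)) (Fin (k + 1 + 1)) ℂ, (B⁻¹ * A * B) 0 0 = A 0 0 := by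
    intro A
    rw [hBinv, hB, Matrix.mul_apply, Fin.sum_univ_succ]
    simp only [dsum_zero_zero, dsum_succ_zero, mul_zero, Finset.sum_const_zero, add_zero]
    rw [Matrix.mul_apply, Fin.sum_univ_succ]
    simp only [dsum_zero_zero, dsum_zero_succ, zero_mul, Finset.sum_const_zero, add_zero]
    field_simp
  obtain ⟨a, ha, haeq⟩ := hl.2 0 0
  rw [h00, Matrix.sub_apply, Matrix.one_apply_eq] at haeq
  have hG00 : (G 0 0 : ℂ) = l.toMatrix 0 0 := by
    have h1 := congrFun (congrFun hG 0) 0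
    rw [h00] at h1
    exact h1
  have hn0 : (0 : ℝ) < n := by exact_mod_cast hn1
  -- the conjugates
  have hconj : ∀ τ : K →+* ℂ, (∀ x : K, τ x = x) ∨ (∀ x : K, τ x = (starRingEnd ℂ) (x : ℂ)) ∨
      (‖τ (G 0 0)‖ ≤ 1 ∧ (‖τ (G 0 0)‖ = 1 → ∀ i : Fin (k + 1), τ (G i.succ 0) = 0)) := by
    intro τ
    rcases hn.definite b τ with h1 | h1 | h1
    · exact Or.inl h1
    · exact Or.inr (Or.inl h1)
    · refine Or.inr (Or.inr ?_)
      refine def_bound (τ (q b)) (HD.map τ) h1 (fun i => τ (G i 0)) ?_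
      have h2 := congrFun (congrFun (hGτ τ) 0) 0
      rw [col_eq, dsum_map _ _ _ (map_zero τ)] at h2
      exact h2
  by_cases ha0 : a = 0
  · left
    have hl00 : l.toMatrix 0 0 = 1 := by
      rw [ha0, mul_zero] at haeq
      linear_combination haeq
    obtain ⟨τ, h1, h2⟩ := exists_other hcm hd
    have h3 := ((hconj τ).resolve_left h1).resolve_left h2
    have hG1 : G 0 0 = 1 := Subtype.ext (by rw [hG00, hl00]; rfl)
    have h4 := h3.2 (by rw [hG1, map_one, norm_one])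
    refine exists_extend l hl00 fun i => ?_
    have h5 : B * (B⁻¹ * l.toMatrix * B) = l.toMatrix * B := by
      rw [← Matrix.mul_assoc, ← Matrix.mul_assoc, Matrix.mul_nonsing_inv B hBu, Matrix.one_mul]
    rw [← hG] at h5
    have h6 := congrFun (congrFun h5 i.succ) 0
    have h7 : ∀ j : Fin (k + 1), G.map (fun x : K => (x : ℂ)) j.succ 0 = 0 := by
      intro j
      have h8 : G j.succ 0 = 0 := by
        have := h4 j
        rwa [map_eq_zero] at this
      rw [Matrix.map_apply, h8]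
      rfl
    have e1 : (l.toMatrix * B) i.succ 0 = l.toMatrix i.succ 0 * μ b := by
      rw [Matrix.mul_apply, Fin.sum_univ_succ]
      simp [hB]
    have e2 : (B * G.map (fun x : K => (x : ℂ))) i.succ 0 = 0 := by
      rw [Matrix.mul_apply, Fin.sum_univ_succ]
      simp only [h7, hB, dsum_succ_zero, mul_zero, zero_mul, Finset.sum_const_zero, add_zero]
    rw [e1, e2] at h6
    rcases mul_eq_zero.1 h6.symm with h8 | h8
    · exact h8
    · exact absurd h8 hμ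
  · right
    have haK : a ∈ K := ha.1
    set a' : K := ⟨a, haK⟩ with ha'
    have haeq' : G 0 0 - 1 = n * a' := by
      apply Subtype.ext
      push_cast
      rw [hG00, haeq]
    have h1 := prod_ge (r := 2 / n) hcm a' ha.2 (fun h => ha0 (congrArg Subtype.val h))
      (by positivity) (by
        intro τ
        rcases hconj τ with h2 | h2 | h2
        · exact Or.inl h2
        · exact Or.inr (Or.inl h2)
        · refine Or.inr (Or.inr ?_)
          have h3 := congrArg τ haeq'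
          rw [map_sub, map_one, map_mul, map_natCast] at h3
          have h4 : (n : ℝ) * ‖τ a'‖ ≤ 2 := by
            have h5 := congrArg norm h3
            rw [norm_mul, Complex.norm_natCast] at h5
            rw [← h5]
            refine (norm_sub_le _ _).trans ?_
            rw [norm_one]
            linarith [h2.1]
          rw [le_div_iff₀ hn0]
          linarith)
    have h2 : ‖l.toMatrix 0 0 - 1‖ = n * ‖a‖ := by
      rw [haeq, norm_mul, Complex.norm_natCast]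
    rw [h2]
    obtain ⟨e, he⟩ : ∃ e, Module.finrank ℚ K = e + 2 := ⟨Module.finrank ℚ K - 2, by omega⟩
    rw [he] at h1 ⊢
    have h3 : e + 2 - 2 = e := by omega
    rw [h3] at h1
    have h4 : ((n : ℝ) / 2) ^ e * (2 / n) ^ e = 1 := by
      rw [← mul_pow]
      have : (n : ℝ) / 2 * (2 / n) = 1 := by field_simp
      rw [this, one_pow]
    have h5 : 0 < ((n : ℝ) / 2) ^ e := by positivity
    calc 4 * ((n : ℝ) / 2) ^ (e + 2) = n ^ 2 * (((n : ℝ) / 2) ^ e * 1) := by ring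
      _ ≤ n ^ 2 * (((n : ℝ) / 2) ^ e * (‖a‖ ^ 2 * (2 / n) ^ e)) := by gcongr
      _ = n ^ 2 * ‖a‖ ^ 2 * (((n : ℝ) / 2) ^ e * (2 / n) ^ e) := by ring
      _ = (n * ‖a‖) ^ 2 := by rw [h4]; ring

end Pool.Agent.Lib.MP_5d4057_al.Comb
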