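import Pool.Agent.Lib.MP_5d4057_al.Hyb.FinalA

/-!
# The combination theorem for hybrids of deep congruence subgroups: definitions
-/

namespace Pool.Agent.Lib.MP_5d4057_al.Comb

open Matrix Pool.Agent.Lib.MP_5d4057_al Pool.Agent.Lib.MP_5d4057_al.Hyb ComplexOrder

/-- The principal congruence subgroup of level `n` of `SU(H, O_K)`: all `g` in `SU(H, O_K)` such that
the matrix of `g` in the basis `B` is congruent to `1` modulo `n`. -/
def level (m : ℕ) (K : Subfield ℂ) (B : Matrix (Fin (m + 1)) (Fin (m + 1)) ℂ) (n : ℕ) :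
    Subgroup (SUGroup m) where
  carrier := {g | g ∈ integralPoints m K B ∧
    ∀ i j, ∃ a ∈ integers K, (B⁻¹ * (g.toMatrix - 1) * B) i j = n * a}
  mul_mem' {g h} hg hh := by
    refine ⟨(integralPoints m K B).mul_mem hg.1 hh.1, fun i j => ?_⟩
    have key : B⁻¹ * ((g * h).toMatrix - 1) * B =
        (B⁻¹ * (g.toMatrix - 1) * B) * (B⁻¹ * h.toMatrix * B) + B⁻¹ * (h.toMatrix - 1) * B := by
      rw [← inv_mul_conj_mul, ← Matrix.add_mul, ← Matrix.mul_add, toMatrix_mul, Matrix.sub_mul,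
        Matrix.one_mul]
      congr 2
      abel
    choose a ha1 ha2 using hg.2
    obtain ⟨b, hb1, hb2⟩ := hh.2 i j
    refine ⟨(∑ l, a i l * (B⁻¹ * h.toMatrix * B) l j) + b, ?_, ?_⟩
    · exact (integers K).add_mem ((integers K).sum_mem fun l _ =>
        (integers K).mul_mem (ha1 i l) (hh.1.1 l j)) hb1
    · rw [key, Matrix.add_apply, hb2, Matrix.mul_apply, mul_add, Finset.mul_sum]
      congr 1
      refine Finset.sum_congr rfl fun l _ => ?_
      rw [ha2]
      ring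
  one_mem' := by
    refine ⟨(integralPoints m K B).one_mem, fun i j => ⟨0, (integers K).zero_mem, ?_⟩⟩
    rw [toMatrix_one]
    simp
  inv_mem' {g} hg := by
    refine ⟨(integralPoints m K B).inv_mem hg.1, fun i j => ?_⟩
    have key : B⁻¹ * ((g⁻¹).toMatrix - 1) * B =
        (B⁻¹ * (g⁻¹).toMatrix * B) * -(B⁻¹ * (g.toMatrix - 1) * B) := by
      have h2 : (g⁻¹).toMatrix * (1 - g.toMatrix) = (g⁻¹).toMatrix - 1 := by
        rw [Matrix.mul_sub, Matrix.mul_one, toMatrix_inv_mul]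
      rw [← Matrix.neg_mul, ← Matrix.mul_neg, ← inv_mul_conj_mul, neg_sub, h2]
    choose a ha1 ha2 using hg.2
    refine ⟨∑ l, (B⁻¹ * (g⁻¹).toMatrix * B) i l * -(a l j), ?_, ?_⟩
    · exact (integers K).sum_mem fun l _ =>
        (integers K).mul_mem (hg.1.2 i l) ((integers K).neg_mem (ha1 l j))
    · rw [key, Matrix.mul_apply, Finset.mul_sum]
      refine Finset.sum_congr rfl fun l _ => ?_
      rw [Matrix.neg_apply, ha2]
      ring

/-- The cosine of the angle between the two totally geodesic hyperplanes, the orthogonal complements of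
the first columns of `g 0` and `g 1`. -/
noncomputable def cosAngle {m : ℕ} (g : Fin 2 → SUGroup m) : ℝ :=
  ‖((g 0).toMatrixᴴ * J m * (g 1).toMatrix) 0 0‖

/-- The two embeddings of `Γ₃` agree. -/
def Agree {k : ℕ} (Γ₃ : Subgroup (SUGroup k)) (g : Fin 2 → SUGroup (k + 2)) : Prop :=
  ∀ γ ∈ Γ₃, g 0 * extend (k + 1) (extend k γ) * (g 0)⁻¹ =
    g 1 * extend (k + 1) (extend k γ) * (g 1)⁻¹

/-- The bases are block diagonal with a common block `D`. -/
def Split {k : ℕ} (B : Fin 2 → Matrix (Fin (k + 1 + 1)) (Fin (k + 1 + 1)) ℂ) : Prop :=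
  ∃ (D : Matrix (Fin (k + 1)) (Fin (k + 1)) ℂ) (μ : Fin 2 → ℂ), ∀ b, B b = dsum (μ b) D

/-- No subgroup of `Γ` is a lattice. -/
def NoLattice {m : ℕ} (Γ : Subgroup (SUGroup m)) : Prop :=
  ∀ Δ : Subgroup (SUGroup m), Δ ≤ Γ → ¬ IsLattice Δ

/-- There is a homomorphism `ρ` from the amalgamated product of `P 0` and `P 1` along `ι 0` and `ι 1`
which restricts to `φ b` on `P b`, and it is injective. -/
def AmalgamInjective {C G : Type} [Group C] [Group G] {P : Fin 2 → Type} [∀ b, Group (P b)]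
    (ι : ∀ b, C →* P b) (φ : ∀ b, P b →* G) : Prop :=
  ∃ ρ : Monoid.PushoutI ι →* G, (∀ b γ, ρ (Monoid.PushoutI.of b γ) = φ b γ) ∧
    Function.Injective ρ

/-- The homomorphism `γ ↦ g * (1 ⊕ γ) * g⁻¹` on the subgroup `Λ` of `SU(m,1)`. -/
def place {m : ℕ} (g : SUGroup (m + 1)) (Λ : Subgroup (SUGroup m)) : Λ →* SUGroup (m + 1) :=
  ((MulAut.conj g).toMonoidHom.comp (extend m)).comp Λ.subtype

/-- If the subgroup `Γ'` of `SU(k,1)` is the common intersection of `Λ 0` and `Λ 1` with `SU(k,1)`, then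
the two maps `place` define a homomorphism on the amalgamated product of `Λ 0` and `Λ 1` along `Γ'`, and
it is injective. -/
def Embeds {k : ℕ} (Λ : Fin 2 → Subgroup (SUGroup (k + 1))) (g : Fin 2 → SUGroup (k + 2)) : Prop :=
  ∀ Γ' : Subgroup (SUGroup k), (∀ b x, x ∈ Γ' ↔ extend k x ∈ Λ b) →
    ∀ ι : ∀ b, Γ' →* Λ b, (∀ b x, (ι b x : SUGroup (k + 1)) = extend k x) →
      AmalgamInjective ι fun b => place (g b) (Λ b)

/-- The coordinates of `z` in the frame `g`. -/
noncomputable def co {m : ℕ} (g : SUGroup m) (z : Fin (m + 1) → ℂ) : Fin (m + 1) → ℂ :=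
  (g⁻¹).toMatrix *ᵥ z

/-- `- ⟨w, w⟩` for the component `w` in `ℂ^{k,1}`. -/
noncomputable def s2 (k : ℕ) (v : Fin (k + 2 + 1) → ℂ) : ℝ :=
  -(hm k (fun i => v i.succ.succ) (fun i => v i.succ.succ)).re

/-- The negative vectors. -/
def Neg (m : ℕ) : Set (Fin (m + 1) → ℂ) := {z | (hm m z z).re < 0}

/-- The neighbourhood of the common hyperplane `W` defined by the frame `g`. -/
def U (k : ℕ) (t : ℝ) (g : SUGroup (k + 2)) : Set (Fin (k + 2 + 1) → ℂ) :=
  {z | ‖co g z 1‖ ^ 2 ≤ t * s2 k (co g z)}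

end Pool.Agent.Lib.MP_5d4057_al.Comb
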