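import Pool.Agent.Lib.MP_5d4057_al.Comb.Defs

/-!
# Geometry of the neighbourhoods `U` of the common hyperplane
-/

namespace Pool.Agent.Lib.MP_5d4057_al.Comb

open Matrix Pool.Agent.Lib.MP_5d4057_al Pool.Agent.Lib.MP_5d4057_al.Hyb ComplexOrder

theorem hm_split {m : ℕ} (a b : Fin (m + 1 + 1) → ℂ) :
    hm (m + 1) a b = star (a 0) * b 0 + hm m (fun i => a i.succ) (fun i => b i.succ) := by
  have h := hm_cons m (a 0) (b 0) (fun i => a i.succ) (fun i => b i.succ)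
  rw [← h]
  congr 1
  · exact (Fin.cons_self_tail a).symm
  · exact (Fin.cons_self_tail b).symm

theorem hm_eq {m : ℕ} (a b : Fin (m + 1) → ℂ) :
    hm m a b = (∑ i : Fin m, star (a i.castSucc) * b i.castSucc) -
      star (a (Fin.last m)) * b (Fin.last m) := by
  have h1 : ∀ i : Fin m, i.castSucc ≠ Fin.last m := fun i => (Fin.castSucc_lt_last i).ne
  rw [hm, dotProduct, Fin.sum_univ_castSucc]
  simp only [J, Matrix.mulVec_diagonal, Pi.star_apply, h1, if_false, if_true, one_mul, neg_mul,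
    mul_neg]
  ring

theorem star_mul_self_re (x : ℂ) : (star x * x).re = ‖x‖ ^ 2 := by
  rw [RCLike.star_def, ← Complex.normSq_eq_conj_mul_self, Complex.normSq_eq_norm_sq]
  norm_cast

theorem hm_self_re {m : ℕ} (a : Fin (m + 1) → ℂ) :
    (hm m a a).re = (∑ i : Fin m, ‖a i.castSucc‖ ^ 2) - ‖a (Fin.last m)‖ ^ 2 := by
  rw [hm_eq, Complex.sub_re, star_mul_self_re, Complex.re_sum]
  congr 1
  exact Finset.sum_congr rfl fun i _ => star_mul_self_re _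

theorem hm_split_re {m : ℕ} (a : Fin (m + 1 + 1) → ℂ) :
    (hm (m + 1) a a).re = ‖a 0‖ ^ 2 + (hm m (fun i => a i.succ) (fun i => a i.succ)).re := by
  rw [hm_split, Complex.add_re, star_mul_self_re]

/-- reversed Cauchy-Schwarz for negative vectors -/
theorem rev_cs {m : ℕ} (a w : Fin (m + 1) → ℂ) (ha : (hm m a a).re ≤ 0) (hw : (hm m w w).re ≤ 0) :
    (hm m a a).re * (hm m w w).re ≤ ‖hm m a w‖ ^ 2 := by
  rw [hm_self_re] at ha hw
  rw [hm_self_re, hm_self_re, hm_eq]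
  set α := ∑ i : Fin m, ‖a i.castSucc‖ ^ 2
  set β := ∑ i : Fin m, ‖w i.castSucc‖ ^ 2
  set x := ‖a (Fin.last m)‖
  set y := ‖w (Fin.last m)‖
  set P := ∑ i : Fin m, star (a i.castSucc) * w i.castSucc with hP
  have hα : 0 ≤ α := Finset.sum_nonneg fun i _ => sq_nonneg _
  have hβ : 0 ≤ β := Finset.sum_nonneg fun i _ => sq_nonneg _
  have hx : 0 ≤ x := norm_nonneg _
  have hy : 0 ≤ y := norm_nonneg _
  have h1 : ‖P‖ ^ 2 ≤ α * β := by
    have h2 : ‖P‖ ≤ ∑ i : Fin m, ‖a i.castSucc‖ * ‖w i.castSucc‖ := by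
      refine (norm_sum_le _ _).trans (le_of_eq (Finset.sum_congr rfl fun i _ => ?_))
      rw [norm_mul, norm_star]
    calc ‖P‖ ^ 2 ≤ (∑ i : Fin m, ‖a i.castSucc‖ * ‖w i.castSucc‖) ^ 2 :=
          pow_le_pow_left₀ (norm_nonneg _) h2 2
      _ ≤ α * β := Finset.sum_mul_sq_le_sq_mul_sq _ _ _
  have h2 : x * y - ‖P‖ ≤ ‖P - star (a (Fin.last m)) * w (Fin.last m)‖ := by
    have h3 := norm_sub_norm_le (star (a (Fin.last m)) * w (Fin.last m)) P
    rw [norm_mul, norm_star, norm_sub_rev] at h3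
    exact h3
  -- Aczel
  set c := Real.sqrt (α * β) with hc
  have hc0 : 0 ≤ c := Real.sqrt_nonneg _
  have hc2 : c ^ 2 = α * β := Real.sq_sqrt (mul_nonneg hα hβ)
  have h3 : ‖P‖ ≤ c := Real.le_sqrt_of_sq_le h1
  have h4 : c ≤ x * y := by
    have : c ^ 2 ≤ (x * y) ^ 2 := by
      rw [hc2, mul_pow]
      exact mul_le_mul (by linarith) (by linarith) hβ (sq_nonneg _)
    exact le_of_sq_le_sq this (mul_nonneg hx hy)
  have h5 : (x * y - c) ^ 2 ≤ ‖P - star (a (Fin.last m)) * w (Fin.last m)‖ ^ 2 :=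
    pow_le_pow_left₀ (by linarith) (by linarith) 2
  refine le_trans ?_ h5
  have h6 : 2 * (x * y) * c ≤ α * y ^ 2 + β * x ^ 2 := by
    have h7 : (2 * (x * y) * c) ^ 2 ≤ (α * y ^ 2 + β * x ^ 2) ^ 2 := by
      have h8 : (2 * (x * y) * c) ^ 2 = 4 * (α * y ^ 2) * (β * x ^ 2) := by
        have : (2 * (x * y) * c) ^ 2 = 4 * (x * y) ^ 2 * c ^ 2 := by ring
        rw [this, hc2]
        ring
      rw [h8]
      nlinarith [sq_nonneg (α * y ^ 2 - β * x ^ 2)]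
    exact le_of_sq_le_sq h7 (by positivity)
  nlinarith

/-- the entry `λ 0 0` is small if both `u` and `λ u` are near the hyperplane -/
theorem entry_le {m : ℕ} (l : SUGroup (m + 1)) (u : Fin (m + 1 + 1) → ℂ) {S : ℝ} (hS : 0 ≤ S)
    (hu : (hm (m + 1) u u).re < 0) (h1 : ‖u 0‖ ^ 2 ≤ S * -(hm (m + 1) u u).re)
    (h2 : ‖(l.toMatrix *ᵥ u) 0‖ ^ 2 ≤ S * -(hm (m + 1) u u).re) :
    ‖l.toMatrix 0 0‖ ≤ 1 + 2 * S := by
  by_contra hcon
  push Not at hcon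
  set e0 : Fin (m + 1 + 1) → ℂ := Fin.cons 1 0 with he0
  have he : ∀ y : Fin (m + 1 + 1) → ℂ, hm (m + 1) e0 y = y 0 := by
    intro y
    rw [hm_split]
    have h3 : (fun i => e0 (Fin.succ i)) = (0 : Fin (m + 1) → ℂ) := by
      ext i
      simp [he0]
    rw [h3]
    simp [he0, hm]
  set f := (l⁻¹).toMatrix *ᵥ e0 with hf
  have hf1 : ∀ y : Fin (m + 1 + 1) → ℂ, hm (m + 1) f y = (l.toMatrix *ᵥ y) 0 := by
    intro y
    rw [← he (l.toMatrix *ᵥ y), ← hm_mulVec l f y, hf, mulVec_mulVec, toMatrix_mul_inv, one_mulVec]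
  have hf0 : star (f 0) = l.toMatrix 0 0 := by
    rw [← he f, hm_star, hf1]
    simp [Matrix.mulVec, dotProduct, Fin.sum_univ_succ, he0]
  have hff : (hm (m + 1) f f).re = 1 := by
    rw [hf1, hf, mulVec_mulVec, toMatrix_mul_inv, one_mulVec]
    simp [he0]
  set x := ‖l.toMatrix 0 0‖ with hx
  have hfx : ‖f 0‖ = x := by rw [hx, ← hf0, norm_star]
  rw [hm_split_re, hfx] at hff
  have huu := hm_split_re u
  set q := -(hm (m + 1) u u).re with hq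
  set p := ‖u 0‖ with hp
  set p' := ‖(l.toMatrix *ᵥ u) 0‖ with hp'
  have hp0 : 0 ≤ p := norm_nonneg _
  have hp0' : 0 ≤ p' := norm_nonneg _
  have hx1 : 1 < x := by linarith
  have hcs := rev_cs (fun i => f (Fin.succ i)) (fun i => u (Fin.succ i)) (by nlinarith)
    (by nlinarith [sq_nonneg p])
  have hle : ‖hm m (fun i => f (Fin.succ i)) (fun i => u (Fin.succ i))‖ ≤ p' + x * p := by
    have h3 := hf1 u
    rw [hm_split, hf0] at h3
    have h4 : hm m (fun i => f (Fin.succ i)) (fun i => u (Fin.succ i)) =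
        (l.toMatrix *ᵥ u) 0 - l.toMatrix 0 0 * u 0 := by
      rw [← h3]
      ring
    rw [h4]
    refine (norm_sub_le _ _).trans ?_
    rw [norm_mul]
  have h5 : ‖hm m (fun i => f (Fin.succ i)) (fun i => u (Fin.succ i))‖ ^ 2 ≤
      (p' + x * p) ^ 2 := pow_le_pow_left₀ (norm_nonneg _) hle 2
  have h6 : (hm m (fun i => f (Fin.succ i)) (fun i => f (Fin.succ i))).re = 1 - x ^ 2 := by
    linarith
  have h7 : (hm m (fun i => u (Fin.succ i)) (fun i => u (Fin.succ i))).re = -q - p ^ 2 := by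
    linarith
  rw [h6, h7] at hcs
  have hq0 : 0 < q := by linarith
  have h8 : p * p' ≤ S * q := by nlinarith [sq_nonneg (p - p')]
  have h9 : (x ^ 2 - 1) * q ≤ p' ^ 2 + 2 * x * (p * p') + p ^ 2 := by nlinarith
  have h10 : (x ^ 2 - 1) * q ≤ 2 * S * (1 + x) * q := by nlinarith
  have h11 : x ^ 2 - 1 ≤ 2 * S * (1 + x) := le_of_mul_le_mul_right h10 hq0
  nlinarith

theorem co_mul {m : ℕ} (g h : SUGroup m) (z : Fin (m + 1) → ℂ) :
    co g ((g * h * g⁻¹).toMatrix *ᵥ z) = h.toMatrix *ᵥ co g z := by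
  rw [co, co, mulVec_mulVec, mulVec_mulVec, ← toMatrix_mul, ← toMatrix_mul]
  congr 2
  group

theorem hm_co {m : ℕ} (g : SUGroup m) (z : Fin (m + 1) → ℂ) :
    hm m (co g z) (co g z) = hm m z z := hm_mulVec _ _ _

theorem neg_mem {m : ℕ} (g : SUGroup m) {z : Fin (m + 1) → ℂ} (hz : z ∈ Neg m) :
    g.toMatrix *ᵥ z ∈ Neg m := by
  show (hm m _ _).re < 0
  rw [hm_mulVec]
  exact hz

theorem extend_mulVec {m : ℕ} (l : SUGroup m) (v : Fin (m + 1 + 1) → ℂ) :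
    (extend m l).toMatrix *ᵥ v = Fin.cons (v 0) (l.toMatrix *ᵥ fun i => v i.succ) := by
  rw [extend_toMatrix]
  conv_lhs => rw [← Fin.cons_self_tail v]
  rw [dsum_mulVec_cons, one_mul]
  rfl

theorem s2_eq (k : ℕ) (v : Fin (k + 2 + 1) → ℂ) :
    s2 k v = -(hm (k + 1) (fun i => v i.succ) (fun i => v i.succ)).re + ‖v 1‖ ^ 2 := by
  have h := hm_split_re (m := k) (fun i => v (Fin.succ i))
  rw [h, s2]
  have : v (Fin.succ 0) = v 1 := rfl
  rw [this]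
  ring

theorem neg_co {k : ℕ} (g : SUGroup (k + 2)) {z : Fin (k + 2 + 1) → ℂ} (hz : z ∈ Neg (k + 2)) :
    ‖co g z 0‖ ^ 2 + ‖co g z 1‖ ^ 2 < s2 k (co g z) := by
  have h1 : (hm (k + 2) (co g z) (co g z)).re < 0 := by
    rw [hm_co]
    exact hz
  rw [hm_split_re] at h1
  rw [s2_eq]
  linarith

/-- the elements of the pieces move `U` off itself -/
theorem piece {k : ℕ} (g : SUGroup (k + 2)) (l : SUGroup (k + 1)) {S t : ℝ} (hS : 0 < S)
    (ht : t * (1 + S) = S) (hl : 1 + 2 * S < ‖l.toMatrix 0 0‖) {z : Fin (k + 2 + 1) → ℂ}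
    (hz : z ∈ Neg (k + 2)) (hU : z ∈ U k t g) :
    (g * extend (k + 1) l * g⁻¹).toMatrix *ᵥ z ∉ U k t g := by
  intro hU'
  have h1 : ‖co g z 1‖ ^ 2 ≤ t * s2 k (co g z) := hU
  have h2 : ‖co g ((g * extend (k + 1) l * g⁻¹).toMatrix *ᵥ z) 1‖ ^ 2 ≤
    t * s2 k (co g ((g * extend (k + 1) l * g⁻¹).toMatrix *ᵥ z)) := hU'
  rw [co_mul, extend_mulVec] at h2
  rw [s2_eq] at h1 h2
  have hneg : (hm (k + 2) (co g z) (co g z)).re < 0 := by
    rw [hm_co]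
    exact hz
  rw [hm_split_re] at hneg
  set u : Fin (k + 1 + 1) → ℂ := fun i => co g z i.succ with hu
  have e1 : (fun i : Fin (k + 1 + 1) => (Fin.cons (co g z 0) (l.toMatrix *ᵥ u) :
      Fin (k + 2 + 1) → ℂ) i.succ) = l.toMatrix *ᵥ u := by
    ext i
    simp
  have e2 : (Fin.cons (co g z 0) (l.toMatrix *ᵥ u) : Fin (k + 2 + 1) → ℂ) 1 =
    (l.toMatrix *ᵥ u) 0 := rfl
  have e3 : co g z 1 = u 0 := rfl
  rw [e1, e2, hm_mulVec] at h2
  rw [e3] at h1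
  have hu0 : (hm (k + 1) u u).re < 0 := by nlinarith [sq_nonneg ‖co g z 0‖]
  have h3 := entry_le l u hS.le hu0 (by nlinarith) (by nlinarith)
  linarith

theorem cover_aux {a b v0 v1 : ℂ} (hab : star a * a + star b * b = 1) {s t : ℝ}
    (hs : ‖v0‖ ^ 2 + ‖v1‖ ^ 2 < s) (h1 : t * s < ‖v1‖ ^ 2)
    (h2 : t * s < ‖star a * v0 + star b * v1‖ ^ 2) (ht : ‖b‖ ≤ 2 * t - 1) : False := by
  set A := star a * v0 + star b * v1 with hA
  set B := v0 * b - v1 * a with hB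
  have h3 : ‖A‖ ^ 2 + ‖B‖ ^ 2 = ‖v0‖ ^ 2 + ‖v1‖ ^ 2 := by
    have h4 : ((‖A‖ ^ 2 + ‖B‖ ^ 2 : ℝ) : ℂ) = ((‖v0‖ ^ 2 + ‖v1‖ ^ 2 : ℝ) : ℂ) := by
      push_cast
      rw [← Complex.conj_mul', ← Complex.conj_mul', ← Complex.conj_mul', ← Complex.conj_mul',
        hA, hB]
      simp only [RCLike.star_def] at hab ⊢
      simp only [map_add, map_sub, map_mul, Complex.conj_conj]
      linear_combination ((starRingEnd ℂ) v0 * v0 + (starRingEnd ℂ) v1 * v1) * hab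
    exact_mod_cast h4
  have h4 : b * ((‖v0‖ ^ 2 + ‖v1‖ ^ 2 : ℝ) : ℂ) =
      v1 * (starRingEnd ℂ) A + (starRingEnd ℂ) v0 * B := by
    push_cast
    rw [← Complex.conj_mul', ← Complex.conj_mul', hA, hB]
    simp only [RCLike.star_def, map_add, map_mul, Complex.conj_conj]
    ring
  have hP : 0 ≤ ‖v0‖ ^ 2 + ‖v1‖ ^ 2 := by positivity
  have h5 : ‖v1‖ * ‖A‖ - ‖v0‖ * ‖B‖ ≤ ‖b‖ * (‖v0‖ ^ 2 + ‖v1‖ ^ 2) := by
    have h6 := congrArg norm h4
    rw [norm_mul, Complex.norm_real, Real.norm_of_nonneg hP] at h6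
    rw [h6]
    have h7 := norm_sub_norm_le (v1 * (starRingEnd ℂ) A) (-((starRingEnd ℂ) v0 * B))
    rw [sub_neg_eq_add, norm_neg, norm_mul, norm_mul, RCLike.norm_conj, RCLike.norm_conj] at h7
    exact h7
  have ht0 : 1 / 2 ≤ t := by linarith [norm_nonneg b]
  have hs0 : 0 < s := by linarith
  have h6 : t * s < ‖v1‖ * ‖A‖ := by
    have : (t * s) ^ 2 < (‖v1‖ * ‖A‖) ^ 2 := by
      have h0 : 0 < t * s := by positivity
      rw [mul_pow ‖v1‖, sq (t * s)]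
      exact mul_lt_mul'' h1 h2 h0.le h0.le
    exact lt_of_pow_lt_pow_left₀ 2 (by positivity) this
  have h7 : ‖v0‖ * ‖B‖ ≤ (1 - t) * s := by
    nlinarith [sq_nonneg (‖v0‖ - ‖B‖)]
  have h8 : ‖b‖ * (‖v0‖ ^ 2 + ‖v1‖ ^ 2) ≤ (2 * t - 1) * s :=
    mul_le_mul ht hs.le hP (by linarith [norm_nonneg b])
  linarith

theorem co_one {k : ℕ} {g : Fin 2 → SUGroup (k + 2)} {X : Matrix (Fin 2) (Fin 2) ℂ}
    {ζ : ℂ} (hζ : star ζ * ζ = 1) (hX : Xᴴ * X = 1)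
    (hg : (g 1).toMatrix = (g 0).toMatrix * (ζ • bsum X 1)) (z : Fin (k + 2 + 1) → ℂ) :
    co (g 1) z 1 = star ζ * (star (X 0 1) * co (g 0) z 0 + star (X 1 1) * co (g 0) z 1) ∧
      s2 k (co (g 1) z) = s2 k (co (g 0) z) := by
  have h1 : co (g 1) z = (star ζ • bsum Xᴴ 1) *ᵥ co (g 0) z := by
    rw [co, toMatrix_gen_one hζ hX hg, co, mulVec_mulVec]
  set v := co (g 0) z with hv
  have h2 : v = Fin.cons (v 0) (Fin.cons (v 1) fun i => v i.succ.succ) := by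
    ext i
    refine Fin.cases rfl (fun i => Fin.cases rfl (fun i => rfl) i) i
  have h3 : co (g 1) z = star ζ • Fin.cons (Xᴴ 0 0 * v 0 + Xᴴ 0 1 * v 1)
      (Fin.cons (Xᴴ 1 0 * v 0 + Xᴴ 1 1 * v 1) fun i => v i.succ.succ) := by
    rw [h1, smul_mulVec]
    conv_lhs => rw [h2]
    rw [bsum_mulVec_cons, one_mulVec]
  constructor
  · rw [h3]
    rfl
  · rw [h3, s2, s2]
    have h4 : (fun i : Fin (k + 1) => (star ζ • Fin.cons (Xᴴ 0 0 * v 0 + Xᴴ 0 1 * v 1)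
      (Fin.cons (Xᴴ 1 0 * v 0 + Xᴴ 1 1 * v 1) fun i => v i.succ.succ) :
      Fin (k + 2 + 1) → ℂ) i.succ.succ) = star ζ • fun i : Fin (k + 1) => v i.succ.succ := by
      ext i
      rfl
    rw [h4, hm_smul_left, hm_smul_right, ← mul_assoc, star_star, mul_comm ζ, hζ, one_mul]

/-- the two neighbourhoods cover the ball -/
theorem cover {k : ℕ} {g : Fin 2 → SUGroup (k + 2)} {X : Matrix (Fin 2) (Fin 2) ℂ}
    {ζ : ℂ} (hζ : star ζ * ζ = 1) (hX : Xᴴ * X = 1)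
    (hg : (g 1).toMatrix = (g 0).toMatrix * (ζ • bsum X 1)) {S t : ℝ} (hS : 0 < S)
    (ht : t * (1 + S) = S) (hcos : ‖X 1 1‖ * (S + 1) ≤ S - 1) {z : Fin (k + 2 + 1) → ℂ}
    (hz : z ∈ Neg (k + 2)) : z ∈ U k t (g 0) ∨ z ∈ U k t (g 1) := by
  by_contra hcon
  push Not at hcon
  obtain ⟨h0, h1⟩ := hcon
  have h0' : ¬ (‖co (g 0) z 1‖ ^ 2 ≤ t * s2 k (co (g 0) z)) := h0
  have h1' : ¬ (‖co (g 1) z 1‖ ^ 2 ≤ t * s2 k (co (g 1) z)) := h1
  push Not at h0' h1'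
  obtain ⟨e1, e2⟩ := co_one hζ hX hg z
  have hζ1 : ‖ζ‖ = 1 := by
    have h2 := congrArg norm hζ
    rw [norm_mul, norm_star, norm_one] at h2
    nlinarith [norm_nonneg ζ]
  rw [e1, e2, norm_mul, norm_star, hζ1, one_mul] at h1'
  have hab : star (X 0 1) * X 0 1 + star (X 1 1) * X 1 1 = 1 := by
    have h2 := congrFun (congrFun hX 1) 1
    simpa [Matrix.mul_apply, Fin.sum_univ_two] using h2
  refine cover_aux hab (neg_co (g 0) hz) h0' h1' ?_
  have h3 : (2 * t - 1) * (S + 1) = S - 1 := by linear_combination 2 * ht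
  have h4 : ‖X 1 1‖ * (S + 1) ≤ (2 * t - 1) * (S + 1) := by rw [h3]; exact hcos
  exact le_of_mul_le_mul_right h4 (by linarith)

end Pool.Agent.Lib.MP_5d4057_al.Comb
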