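import Pool.Agent.Lib.MP_5d4057_al.Comb.Arith

/-!
# Congruence subgroups in the normal form
-/

namespace Pool.Agent.Lib.MP_5d4057_al.Comb

open Matrix Pool.Agent.Lib.MP_5d4057_al Pool.Agent.Lib.MP_5d4057_al.Hyb ComplexOrder

theorem level_mono {m : ℕ} {K : Subfield ℂ} {B : Matrix (Fin (m + 1)) (Fin (m + 1)) ℂ} (c n : ℕ) :
    level m K B (c * n) ≤ level m K B n := by
  intro g hg
  refine ⟨hg.1, fun i j => ?_⟩
  obtain ⟨a, ha1, ha2⟩ := hg.2 i j
  refine ⟨c * a, (integers K).mul_mem (natCast_mem _ _) ha1, ?_⟩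
  rw [ha2]
  push_cast
  ring

theorem level_change {m : ℕ} {K : Subfield ℂ} (hK : NumberField K)
    {B B' : Matrix (Fin (m + 1)) (Fin (m + 1)) ℂ} {Q : Matrix (Fin (m + 1)) (Fin (m + 1)) K} {σ : ℂ}
    (hB : B.det ≠ 0) (hσ : σ ≠ 0) (hQ : Q.det ≠ 0)
    (h : B * Q.map (fun x : K => (x : ℂ)) = σ • B') :
    ∃ c : ℕ, 1 ≤ c ∧ ∀ n, level m K B (c * n) ≤ level m K B' n := by
  obtain ⟨d1, hd1, hd1'⟩ := exists_denom hK (fun p : Fin (m + 1) × Fin (m + 1) => Q p.1 p.2)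
  obtain ⟨d2, hd2, hd2'⟩ := exists_denom hK (fun p : Fin (m + 1) × Fin (m + 1) => Q⁻¹ p.1 p.2)
  set Qc : Matrix (Fin (m + 1)) (Fin (m + 1)) ℂ := Q.map (fun x : K => (x : ℂ)) with hQc
  set Qi : Matrix (Fin (m + 1)) (Fin (m + 1)) ℂ := Q⁻¹.map (fun x : K => (x : ℂ)) with hQi
  have hQQ : Qi * Qc = 1 := by
    have h1 : Q⁻¹ * Q = 1 := Matrix.nonsing_inv_mul Q (isUnit_iff_ne_zero.2 hQ)
    have h2 := Matrix.map_mul (L := Q⁻¹) (M := Q) (f := K.subtype)
    rw [h1] at h2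
    have h3 : (1 : Matrix (Fin (m + 1)) (Fin (m + 1)) K).map K.subtype = 1 :=
      Matrix.map_one _ (map_zero _) (map_one _)
    rw [h3] at h2
    exact h2.symm
  have hBB : B⁻¹ * B = 1 := Matrix.nonsing_inv_mul B (isUnit_iff_ne_zero.2 hB)
  have hB' : B' = σ⁻¹ • (B * Qc) := by
    rw [h, smul_smul, inv_mul_cancel₀ hσ, one_smul]
  have hB'i : B'⁻¹ = σ • (Qi * B⁻¹) := by
    refine Matrix.inv_eq_left_inv ?_
    rw [hB']
    calc σ • (Qi * B⁻¹) * σ⁻¹ • (B * Qc) = (σ⁻¹ * σ) • (Qi * (B⁻¹ * B) * Qc) := by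
          simp only [Matrix.mul_smul, Matrix.smul_mul, smul_smul, Matrix.mul_assoc]
      _ = 1 := by rw [inv_mul_cancel₀ hσ, hBB, Matrix.mul_one, hQQ, one_smul]
  have hconj : ∀ A : Matrix (Fin (m + 1)) (Fin (m + 1)) ℂ,
      B'⁻¹ * A * B' = Qi * (B⁻¹ * A * B) * Qc := by
    intro A
    rw [hB'i]
    conv_lhs => rw [hB']
    calc σ • (Qi * B⁻¹) * A * σ⁻¹ • (B * Qc) = (σ⁻¹ * σ) • (Qi * (B⁻¹ * A * B) * Qc) := by
          simp only [Matrix.mul_smul, Matrix.smul_mul, smul_smul, Matrix.mul_assoc]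
      _ = _ := by rw [inv_mul_cancel₀ hσ, one_smul]
  have hB'1 : B'⁻¹ * B' = 1 := by
    have h1 := hconj 1
    rw [Matrix.mul_one, Matrix.mul_one, hBB, Matrix.mul_one, hQQ] at h1
    exact h1
  refine ⟨d1 * d2, Nat.mul_pos hd1 hd2, fun n g hg => ?_⟩
  have key : ∀ g ∈ level m K B (d1 * d2 * n), ∀ i j, ∃ a ∈ integers K,
      (B'⁻¹ * (g.toMatrix - 1) * B') i j = n * a := by
    intro g hg i j
    choose a ha1 ha2 using hg.2
    refine ⟨∑ l, (∑ p, (d2 * Qi i p) * a p l) * (d1 * Qc l j), ?_, ?_⟩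
    · refine (integers K).sum_mem fun l _ => (integers K).mul_mem
        ((integers K).sum_mem fun p _ => (integers K).mul_mem (hd2' (i, p)) (ha1 p l))
        (hd1' (l, j))
    · rw [hconj, Matrix.mul_apply, Finset.mul_sum]
      refine Finset.sum_congr rfl fun l _ => ?_
      rw [Matrix.mul_apply, Finset.sum_mul, Finset.sum_mul, Finset.mul_sum]
      refine Finset.sum_congr rfl fun p _ => ?_
      rw [ha2]
      push_cast
      ring
  have hent : ∀ g ∈ level m K B (d1 * d2 * n), EntriesIn (integers K) B' g.toMatrix := by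
    intro g hg i j
    obtain ⟨a, ha1, ha2⟩ := key g hg i j
    have h1 : (B'⁻¹ * g.toMatrix * B') i j = n * a + (1 : Matrix (Fin (m + 1)) (Fin (m + 1)) ℂ) i j := by
      rw [← ha2, ← Matrix.add_apply]
      rw [Matrix.mul_sub, Matrix.sub_mul, Matrix.mul_one, hB'1, sub_add_cancel]
    show (B'⁻¹ * g.toMatrix * B') i j ∈ integers K
    rw [h1]
    refine (integers K).add_mem ((integers K).mul_mem (natCast_mem _ _) ha1) ?_
    rw [Matrix.one_apply]
    split_ifs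
    · exact (integers K).one_mem
    · exact (integers K).zero_mem
  exact ⟨⟨hent g hg, hent g⁻¹ ((level m K B (d1 * d2 * n)).inv_mem hg)⟩, key g hg⟩

/-- The normal form; no loss of level if the bases are block diagonal with a common block. -/
theorem exists_nf {k : ℕ} (hk : 1 ≤ k) (Γ₃ : Subgroup (SUGroup k)) (h3 : IsLattice Γ₃)
    (K : Subfield ℂ) (H : Fin 2 → Matrix (Fin (k + 1 + 1)) (Fin (k + 1 + 1)) K)
    (B : Fin 2 → Matrix (Fin (k + 1 + 1)) (Fin (k + 1 + 1)) ℂ)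
    (hf : ∀ b, IsForm (k + 1) K (H b) (B b))
    (hr : ∀ b, ∀ γ ∈ Γ₃, EntriesIn K (B b) (extend k γ).toMatrix) :
    ∃ (c : ℕ) (D : Matrix (Fin (k + 1)) (Fin (k + 1)) ℂ)
      (HD : Matrix (Fin (k + 1)) (Fin (k + 1)) K) (μ : Fin 2 → ℂ) (q : Fin 2 → K), 1 ≤ c ∧
      ((∃ (D' : Matrix (Fin (k + 1)) (Fin (k + 1)) ℂ) (μ' : Fin 2 → ℂ),
        ∀ b, B b = dsum (μ' b) D') → c = 1) ∧
      IsNF k K D HD μ q ∧
      ∀ b n, level (k + 1) K (B b) (c * n) ≤ level (k + 1) K (dsum (μ b) D) n := by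
  by_cases hsp : ∃ (D' : Matrix (Fin (k + 1)) (Fin (k + 1)) ℂ) (μ' : Fin 2 → ℂ),
        ∀ b, B b = dsum (μ' b) D'
  · obtain ⟨D, μ, hD⟩ := hsp
    have hform : ∀ b, dsum (star (μ b) * μ b) (Dᴴ * J k * D) =
        (H b).map (fun x : K => (x : ℂ)) := by
      intro b
      have h1 := (hf b).form
      rw [hD b, dsum_conjTranspose, J_succ, dsum_mul, dsum_mul, mul_one] at h1
      exact h1
    set HD : Matrix (Fin (k + 1)) (Fin (k + 1)) K := Matrix.of fun i j => H 0 i.succ j.succ with hHD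
    have hHD' : Dᴴ * J k * D = HD.map (fun x : K => (x : ℂ)) := by
      ext i j
      have h1 := congrFun (congrFun (hform 0) i.succ) j.succ
      rw [dsum_succ_succ] at h1
      exact h1
    have hH : ∀ b, H b = dsum (H b 0 0) HD := by
      intro b
      apply Matrix.map_injective (f := fun x : K => (x : ℂ)) Subtype.coe_injective
      show (H b).map (fun x : K => (x : ℂ)) = (dsum (H b 0 0) HD).map (fun x : K => (x : ℂ))
      rw [dsum_map _ _ _ rfl, ← hHD', ← hform b]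
      congr 1
      have h1 := congrFun (congrFun (hform b) 0) 0
      rw [dsum_zero_zero] at h1
      exact h1
    have hdet : ∀ b, μ b * D.det ≠ 0 := by
      intro b
      have h1 := (hf b).det
      rwa [hD b, det_dsum] at h1
    refine ⟨1, D, HD, μ, fun b => H b 0 0, le_refl _, fun _ => rfl,
      ⟨right_ne_zero_of_mul (hdet 0), hHD', fun b => left_ne_zero_of_mul (hdet b), fun b => ?_,
        fun b τ => ?_⟩, fun b n => ?_⟩
    · have h1 := congrFun (congrFun (hform b) 0) 0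
      rw [dsum_zero_zero] at h1
      exact h1.symm
    · have h1 := (hf b).definite τ
      rw [hH b, dsum_map _ _ _ (map_zero τ)] at h1
      exact h1
    · rw [one_mul, hD b]
  · obtain ⟨D, HD, μ, q, hn, -, hb⟩ := exists_normal_form hk Γ₃ h3 K H B hf hr
    choose σ Q hσ hQ hBQ using hb
    choose c hc1 hc using fun b => level_change (hf b).cm.1 (hf b).det (hσ b) (hQ b) (hBQ b)
    refine ⟨c 0 * c 1, D, HD, μ, q, Nat.mul_pos (hc1 0) (hc1 1), fun h => absurd h hsp, hn,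
      fun b n => ?_⟩
    fin_cases b
    · have h1 := hc 0 (c 1 * n)
      rw [← mul_assoc] at h1
      exact h1.trans (level_mono _ _)
    · have h1 := hc 1 (c 0 * n)
      rw [← mul_assoc, mul_comm (c 1) (c 0)] at h1
      exact h1.trans (level_mono _ _)

end Pool.Agent.Lib.MP_5d4057_al.Comb
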