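import Mathlib

/-!
# Ping-pong for two subgroups with a common subgroup
-/

namespace Pool.Agent.Lib.MP_5d4057_al.Comb

/-- the reduced products of elements of `Γ 0 - A` and `Γ 1 - A` with first factor in `Γ b` -/
private inductive R {G : Type} [Group G] (A : Set G) (Γ : Fin 2 → Subgroup G) : Fin 2 → G → Prop
  | base (b : Fin 2) (γ : G) (h : γ ∈ Γ b) (hA : γ ∉ A) : R A Γ b γ
  | step (b c : Fin 2) (γ g : G) (hbc : b ≠ c) (h : γ ∈ Γ b) (hA : γ ∉ A) (hg : R A Γ c g) :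
      R A Γ b (γ * g)

private theorem R.inv {G : Type} [Group G] {A : Set G} {Γ : Fin 2 → Subgroup G} {b : Fin 2} {g : G}
    (hg : R A Γ b g) : (g ∈ Γ b ∧ g ∉ A) ∨ ∃ c γ g', b ≠ c ∧ γ ∈ Γ b ∧ γ ∉ A ∧ R A Γ c g' ∧
      g = γ * g' := by
  cases hg with
  | base _ _ h1 h2 => exact Or.inl ⟨h1, h2⟩
  | step _ c γ g' h1 h2 h3 h4 => exact Or.inr ⟨c, γ, g', h1, h2, h3, h4, rfl⟩

private theorem R.mul_left {G : Type} [Group G] {A : Subgroup G} {Γ : Fin 2 → Subgroup G}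
    (hA : ∀ b, A ≤ Γ b) {b : Fin 2} {a g : G} (ha : a ∈ A) (hg : R (A : Set G) Γ b g) :
    R (A : Set G) Γ b (a * g) := by
  rcases hg.inv with ⟨h1, h2⟩ | ⟨c, γ, g', h1, h2, h3, h4, rfl⟩
  · exact R.base b _ ((Γ b).mul_mem (hA b ha) h1) fun h3 => h2 ((A.mul_mem_cancel_left ha).1 h3)
  · rw [← mul_assoc]
    exact R.step b c _ g' h1 ((Γ b).mul_mem (hA b ha) h2)
      (fun h5 => h3 ((A.mul_mem_cancel_left ha).1 h5)) h4

private theorem R.mul_mem {G : Type} [Group G] (A : Subgroup G) (Γ : Fin 2 → Subgroup G)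
    (hA : ∀ b, A ≤ Γ b) (c : Fin 2) (x : G) (hx : x ∈ Γ c) (g : G)
    (hg : g ∈ A ∨ ∃ b, R (A : Set G) Γ b g) : x * g ∈ A ∨ ∃ b, R (A : Set G) Γ b (x * g) := by
  by_cases hxA : x ∈ A
  · rcases hg with hg | ⟨b, hg⟩
    · exact Or.inl (A.mul_mem hxA hg)
    · exact Or.inr ⟨b, hg.mul_left hA hxA⟩
  · rcases hg with hg | ⟨b, hg⟩
    · refine Or.inr ⟨c, R.base c _ ((Γ c).mul_mem hx (hA c hg)) fun h2 => hxA ?_⟩
      exact (A.mul_mem_cancel_right hg).1 h2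
    · by_cases hbc : c = b
      · subst hbc
        rcases hg.inv with ⟨h1, h2⟩ | ⟨c', γ, g', h1, h2, h3, h4, rfl⟩
        · by_cases hm : x * g ∈ A
          · exact Or.inl hm
          · exact Or.inr ⟨c, R.base c _ ((Γ c).mul_mem hx h1) hm⟩
        · rw [← mul_assoc]
          by_cases hm : x * γ ∈ A
          · exact Or.inr ⟨c', h4.mul_left hA hm⟩
          · exact Or.inr ⟨c, R.step c c' _ g' h1 ((Γ c).mul_mem hx h2) hm h4⟩
      · exact Or.inr ⟨c, R.step c b x g hbc hx hxA hg⟩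

private theorem R.move {G X : Type} [Group G] (act : G → X → X)
    (hact : ∀ g h x, act (g * h) x = act g (act h x)) (N : Set X)
    (hN : ∀ g, ∀ x ∈ N, act g x ∈ N) (U : Fin 2 → Set X) (hU : ∀ x ∈ N, x ∈ U 0 ∨ x ∈ U 1)
    (A : Set G) (Γ : Fin 2 → Subgroup G)
    (hΓ : ∀ b, ∀ γ ∈ Γ b, γ ∉ A → ∀ x ∈ N, x ∈ U b → act γ x ∉ U b)
    (b : Fin 2) (g : G) (hg : R A Γ b g) (x : X) (hx : x ∈ N) (h : ∀ b, x ∈ U b) :
    act g x ∉ U b := by
  induction hg with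
  | base b γ hγ hA => exact hΓ b γ hγ hA x hx (h b)
  | step b c γ g hbc hγ hA hg ih =>
    rw [hact]
    refine hΓ b γ hγ hA _ (hN g x hx) ?_
    have h2 := hU _ (hN g x hx)
    fin_cases b <;> fin_cases c
    · exact absurd rfl hbc
    · exact h2.resolve_right ih
    · exact h2.resolve_left ih
    · exact absurd rfl hbc

/-- **Ping-pong.** The elements of `⟨Γ 0, Γ 1⟩` outside `A` move `U 0 ∩ U 1` off itself. -/
theorem pp {G X : Type} [Group G] (act : G → X → X)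
    (hact : ∀ g h x, act (g * h) x = act g (act h x)) (N : Set X)
    (hN : ∀ g, ∀ x ∈ N, act g x ∈ N) (U : Fin 2 → Set X) (hU : ∀ x ∈ N, x ∈ U 0 ∨ x ∈ U 1)
    (A : Subgroup G) (Γ : Fin 2 → Subgroup G) (hA : ∀ b, A ≤ Γ b)
    (hΓ : ∀ b, ∀ γ ∈ Γ b, γ ∉ A → ∀ x ∈ N, x ∈ U b → act γ x ∉ U b)
    (g : G) (hg : g ∈ Γ 0 ⊔ Γ 1) (hgA : g ∉ A) (x : X) (hx : x ∈ N) (h : ∀ b, x ∈ U b) :
    ∃ b, act g x ∉ U b := by
  have key : ∀ y : G, y ∈ Γ 0 ⊔ Γ 1 → y ∈ A ∨ ∃ b, R (A : Set G) Γ b y := by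
    intro y hy
    rw [Subgroup.sup_eq_closure] at hy
    induction hy using Subgroup.closure_induction_left with
    | one => exact Or.inl A.one_mem
    | mul_left x hx y hy ih =>
      rcases hx with hx | hx
      · exact R.mul_mem A Γ hA 0 x hx y ih
      · exact R.mul_mem A Γ hA 1 x hx y ih
    | inv_mul_cancel x hx y hy ih =>
      rcases hx with hx | hx
      · exact R.mul_mem A Γ hA 0 _ ((Γ 0).inv_mem hx) y ih
      · exact R.mul_mem A Γ hA 1 _ ((Γ 1).inv_mem hx) y ih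
  obtain ⟨b, hb⟩ := (key g hg).resolve_left hgA
  exact ⟨b, R.move act hact N hN U hU _ Γ (fun b γ hγ hnA => hΓ b γ hγ hnA) b g hb x hx h⟩

end Pool.Agent.Lib.MP_5d4057_al.Comb
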