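import Pool.Agent.Lib.MP_5d4057_al.Comb.NoLat
import Pool.Agent.Lib.MP_5d4057_al.Comb.Level
import Pool.Agent.Lib.MP_5d4057_al.Comb.PP

/-!
# The combination theorem for hybrids of deep congruence subgroups
-/

namespace Pool.Agent.Lib.MP_5d4057_al.Comb

open Matrix Pool.Agent.Lib.MP_5d4057_al Pool.Agent.Lib.MP_5d4057_al.Hyb ComplexOrder

theorem SUext {m : ℕ} {a b : SUGroup m} (h : a.toMatrix = b.toMatrix) : a = b :=
  Subtype.ext (Subtype.ext h)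

theorem cosAngle_eq {k : ℕ} {g : Fin 2 → SUGroup (k + 2)} {X : Matrix (Fin 2) (Fin 2) ℂ}
    {ζ : ℂ} (hζ : star ζ * ζ = 1) (hX : Xᴴ * X = 1)
    (hg : (g 1).toMatrix = (g 0).toMatrix * (ζ • bsum X 1)) :
    cosAngle g = ‖X 1 1‖ ∧ ‖X 1 1‖ ≤ 1 := by
  obtain ⟨h1, h2⟩ := cosSq_eq hζ hX hg
  have h3 := congrArg Complex.re h1
  rw [cosSq, star_mul_self_re, star_mul_self_re] at h3
  rw [h1] at h2
  have h4 := congrArg Complex.re h2
  rw [Complex.add_re, star_mul_self_re, star_mul_self_re, Complex.one_re] at h4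
  constructor
  · exact (pow_left_inj₀ (norm_nonneg _) (norm_nonneg _) two_ne_zero).1 h3
  · nlinarith [norm_nonneg (X 1 1), sq_nonneg ‖X 0 1‖]

theorem conj_extend {k : ℕ} {D : Matrix (Fin (k + 1)) (Fin (k + 1)) ℂ} (hD : D.det ≠ 0) {μ : ℂ}
    (hμ : μ ≠ 0) (x : SUGroup k) :
    (dsum μ D)⁻¹ * (extend k x).toMatrix * dsum μ D = dsum 1 (D⁻¹ * x.toMatrix * D) ∧
      (dsum μ D)⁻¹ * ((extend k x).toMatrix - 1) * dsum μ D =
        dsum 1 (D⁻¹ * x.toMatrix * D) - 1 := by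
  have h1 : (dsum μ D)⁻¹ * (extend k x).toMatrix * dsum μ D =
      dsum 1 (D⁻¹ * x.toMatrix * D) := by
    rw [dsum_inv μ D hμ hD, extend_toMatrix, dsum_mul, dsum_mul, mul_one, inv_mul_cancel₀ hμ]
  refine ⟨h1, ?_⟩
  have hB : (dsum μ D)⁻¹ * dsum μ D = 1 := by
    refine Matrix.nonsing_inv_mul _ (isUnit_iff_ne_zero.2 ?_)
    rw [det_dsum]
    exact mul_ne_zero hμ hD
  rw [Matrix.mul_sub, Matrix.sub_mul, h1, Matrix.mul_one, hB]

theorem level_extend {k : ℕ} {K : Subfield ℂ} {D : Matrix (Fin (k + 1)) (Fin (k + 1)) ℂ}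
    (hD : D.det ≠ 0) {μ μ' : ℂ} (hμ : μ ≠ 0) (hμ' : μ' ≠ 0) (n : ℕ) (x : SUGroup k)
    (hx : extend k x ∈ level (k + 1) K (dsum μ D) n) :
    extend k x ∈ level (k + 1) K (dsum μ' D) n := by
  refine ⟨⟨fun i j => ?_, fun i j => ?_⟩, fun i j => ?_⟩
  · have h1 := hx.1.1 i j
    rw [(conj_extend hD hμ x).1] at h1
    rw [(conj_extend hD hμ' x).1]
    exact h1
  · have h1 := hx.1.2 i j
    rw [← map_inv, (conj_extend hD hμ x⁻¹).1] at h1
    rw [← map_inv, (conj_extend hD hμ' x⁻¹).1]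
    exact h1
  · have h1 := hx.2 i j
    rw [(conj_extend hD hμ x).2] at h1
    rw [(conj_extend hD hμ' x).2]
    exact h1

theorem agree_all {k : ℕ} {g : Fin 2 → SUGroup (k + 2)} {X : Matrix (Fin 2) (Fin 2) ℂ}
    {ζ : ℂ} (hg : (g 1).toMatrix = (g 0).toMatrix * (ζ • bsum X 1)) (x : SUGroup k) :
    g 1 * extend (k + 1) (extend k x) * (g 1)⁻¹ = g 0 * extend (k + 1) (extend k x) * (g 0)⁻¹ := by
  have h1 : g 1 * extend (k + 1) (extend k x) =
      g 0 * extend (k + 1) (extend k x) * (g 0)⁻¹ * g 1 := by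
    apply SUext
    have h4 : (extend (k + 1) (extend k x)).toMatrix = bsum 1 x.toMatrix := by
      rw [extend_toMatrix, extend_toMatrix, dsum_dsum, ← Matrix.one_fin_two]
    rw [toMatrix_mul, toMatrix_mul, toMatrix_mul, toMatrix_mul, hg, h4]
    calc (g 0).toMatrix * ζ • bsum X 1 * bsum 1 x.toMatrix
        = (g 0).toMatrix * bsum 1 x.toMatrix * ζ • bsum X 1 := by
          simp only [Matrix.mul_smul, Matrix.smul_mul, Matrix.mul_assoc, bsum_mul, Matrix.mul_one,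
            Matrix.one_mul]
      _ = (g 0).toMatrix * bsum 1 x.toMatrix * (((g 0)⁻¹).toMatrix * (g 0).toMatrix) *
            ζ • bsum X 1 := by rw [toMatrix_inv_mul, Matrix.mul_one]
      _ = _ := by simp only [Matrix.mul_assoc]
  rw [h1]
  group

/-- the constants -/
theorem exists_St {κ R : ℝ} (hκ0 : 0 ≤ κ) (hκ : κ < 1) (hR : 2 < R * (1 - κ)) :
    ∃ S t : ℝ, 0 < S ∧ t * (1 + S) = S ∧ κ * (S + 1) ≤ S - 1 ∧ 1 + 2 * S < 2 * R - 1 ∧
      1 / 2 < t := by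
  have h1 : 0 < 1 - κ := by linarith
  have h2 : 1 ≤ 1 / (1 - κ) := by
    rw [le_div_iff₀ h1]
    linarith
  have h3 : 1 / (1 - κ) < R / 2 := by
    rw [div_lt_div_iff₀ h1 two_pos]
    linarith
  have h4 : (1 / (1 - κ)) * (1 - κ) = 1 := by
    field_simp
  have h5 : 1 < 1 / (1 - κ) + R / 2 - 1 := by linarith
  refine ⟨1 / (1 - κ) + R / 2 - 1, (1 / (1 - κ) + R / 2 - 1) / (1 + (1 / (1 - κ) + R / 2 - 1)),
    by linarith, ?_, ?_, by linarith, ?_⟩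
  · rw [div_mul_cancel₀]
    linarith
  · nlinarith
  · rw [div_lt_div_iff₀ two_pos (by linarith)]
    linarith

/-- The elements of the two pieces outside the common subgroup move the neighbourhoods off
themselves. -/
theorem exists_S {k : ℕ} {K : Subfield ℂ} {D : Matrix (Fin (k + 1)) (Fin (k + 1)) ℂ}
    {HD : Matrix (Fin (k + 1)) (Fin (k + 1)) K} {μ : Fin 2 → ℂ} {q : Fin 2 → K} (hcm : IsCM K)
    (hd : 2 < Module.finrank ℚ K) (hn : IsNF k K D HD μ q) (n : ℕ) {g : Fin 2 → SUGroup (k + 2)}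
    {X : Matrix (Fin 2) (Fin 2) ℂ} {ζ : ℂ} (hζ : star ζ * ζ = 1) (hX : Xᴴ * X = 1)
    (hg : (g 1).toMatrix = (g 0).toMatrix * (ζ • bsum X 1))
    (hang : 4 < ((n : ℝ) / 2) ^ Module.finrank ℚ K * (1 - cosAngle g) ^ 2) :
    ∃ t : ℝ, 1 / 2 < t ∧ (∀ z ∈ Neg (k + 2), z ∈ U k t (g 0) ∨ z ∈ U k t (g 1)) ∧
      ∀ (b : Fin 2) (l : SUGroup (k + 1)), l ∈ level (k + 1) K (dsum (μ b) D) n →
        (¬ ∃ x : SUGroup k, l = extend k x) → ∀ z ∈ Neg (k + 2), z ∈ U k t (g b) →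
          (g b * extend (k + 1) l * (g b)⁻¹).toMatrix *ᵥ z ∉ U k t (g b) := by
  obtain ⟨hc1, hc2⟩ := cosAngle_eq hζ hX hg
  rw [hc1] at hang
  have hn1 : 1 ≤ n := by
    by_contra h
    have h0 : n = 0 := by omega
    rw [h0, Nat.cast_zero, zero_div, zero_pow (by omega), zero_mul] at hang
    linarith
  have hP : 0 ≤ ((n : ℝ) / 2) ^ Module.finrank ℚ K := by positivity
  set R := Real.sqrt (((n : ℝ) / 2) ^ Module.finrank ℚ K) with hR
  have hR0 : 0 ≤ R := Real.sqrt_nonneg _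
  have hRR : R ^ 2 = ((n : ℝ) / 2) ^ Module.finrank ℚ K := Real.sq_sqrt hP
  have h1 : 2 < R * (1 - ‖X 1 1‖) := by
    have h2 : (2 : ℝ) ^ 2 < (R * (1 - ‖X 1 1‖)) ^ 2 := by
      rw [mul_pow, hRR]
      linarith
    exact lt_of_pow_lt_pow_left₀ 2 (mul_nonneg hR0 (by linarith)) h2
  have h2 : ‖X 1 1‖ < 1 := by
    rcases lt_or_eq_of_le hc2 with h | h
    · exact h
    · rw [h] at h1
      linarith
  obtain ⟨S, t, hS, ht, hκ, hl, ht2⟩ := exists_St (norm_nonneg _) h2 h1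
  refine ⟨t, ht2, fun z hz => cover hζ hX hg hS ht hκ hz, fun b l hlv hlx z hz hU => ?_⟩
  refine piece (g b) l hS ht ?_ hz hU
  have h3 := (entry_large hcm hd hn b n hn1 l hlv).resolve_left hlx
  rw [← hRR] at h3
  have h4 : 2 * R ≤ ‖l.toMatrix 0 0 - 1‖ := by
    have h5 : (2 * R) ^ 2 ≤ ‖l.toMatrix 0 0 - 1‖ ^ 2 := by
      rw [mul_pow]
      linarith
    exact (pow_le_pow_iff_left₀ (by positivity) (norm_nonneg _) two_ne_zero).1 h5
  have h5 : ‖l.toMatrix 0 0 - 1‖ ≤ ‖l.toMatrix 0 0‖ + 1 := by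
    have := norm_sub_le (l.toMatrix 0 0) 1
    rwa [norm_one] at this
  linarith

/-- No subgroup of the group generated by the two pieces is a lattice. -/
theorem no_sublattice {k : ℕ} (hk : 1 ≤ k) {K : Subfield ℂ}
    {D : Matrix (Fin (k + 1)) (Fin (k + 1)) ℂ}
    {HD : Matrix (Fin (k + 1)) (Fin (k + 1)) K} {μ : Fin 2 → ℂ} {q : Fin 2 → K} (hcm : IsCM K)
    (hd : 2 < Module.finrank ℚ K) (hn : IsNF k K D HD μ q) (n : ℕ) {g : Fin 2 → SUGroup (k + 2)}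
    {X : Matrix (Fin 2) (Fin 2) ℂ} {ζ : ℂ} (hζ : star ζ * ζ = 1) (hX : Xᴴ * X = 1)
    (hg : (g 1).toMatrix = (g 0).toMatrix * (ζ • bsum X 1))
    (hang : 4 < ((n : ℝ) / 2) ^ Module.finrank ℚ K * (1 - cosAngle g) ^ 2)
    (Λ : Fin 2 → Subgroup (SUGroup (k + 1)))
    (hΛ : ∀ b, Λ b ≤ level (k + 1) K (dsum (μ b) D) n) (Δ : Subgroup (SUGroup (k + 2)))
    (hΔ : Δ ≤ hybrid Λ g) : ¬ IsLattice Δ := by
  obtain ⟨t, ht, hcov, hmove⟩ := exists_S hcm hd hn n hζ hX hg hang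
  let φ : Fin 2 → (SUGroup (k + 1) →* SUGroup (k + 2)) := fun b =>
    (MulAut.conj (g b)).toMonoidHom.comp (extend (k + 1))
  have hφ : ∀ b l, φ b l = g b * extend (k + 1) l * (g b)⁻¹ := fun b l => rfl
  let Γ : Fin 2 → Subgroup (SUGroup (k + 2)) := fun b =>
    (level (k + 1) K (dsum (μ b) D) n).map (φ b)
  let A : Subgroup (SUGroup (k + 2)) :=
    ((level (k + 1) K (dsum (μ 0) D) n).comap (extend k)).map ((φ 0).comp (extend k))
  have hagree : ∀ (b : Fin 2) (x : SUGroup k), φ b (extend k x) = φ 0 (extend k x) := by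
    intro b x
    fin_cases b
    · rfl
    · exact agree_all hg x
  have hA : ∀ b, A ≤ Γ b := by
    rintro b _ ⟨x, hx, rfl⟩
    exact ⟨extend k x, level_extend hn.det (hn.μ_ne 0) (hn.μ_ne b) n x hx, hagree b x⟩
  refine no_lattice hk hζ hX hg ht Δ fun γ hγ => ?_
  by_cases hγA : γ ∈ A
  · obtain ⟨x, -, hx⟩ := hγA
    exact Or.inl ⟨x, hx.symm⟩
  · refine Or.inr fun z hz h0 h1 => ?_
    have hsup : γ ∈ Γ 0 ⊔ Γ 1 := by
      have hle : hybrid Λ g ≤ Γ 0 ⊔ Γ 1 := by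
        rw [hybrid, Subgroup.closure_le]
        rintro _ ⟨b, l, hl, rfl⟩
        have h2 : g b * extend (k + 1) l * (g b)⁻¹ ∈ Γ b := ⟨l, hΛ b hl, rfl⟩
        fin_cases b
        · exact (le_sup_left : Γ 0 ≤ Γ 0 ⊔ Γ 1) h2
        · exact (le_sup_right : Γ 1 ≤ Γ 0 ⊔ Γ 1) h2
      exact hle (hΔ hγ)
    obtain ⟨b, hb⟩ := pp (fun (γ : SUGroup (k + 2)) z => γ.toMatrix *ᵥ z)
      (fun a b x => by
        show (a * b).toMatrix *ᵥ x = a.toMatrix *ᵥ (b.toMatrix *ᵥ x)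
        rw [toMatrix_mul, mulVec_mulVec])
      (Neg (k + 2)) (fun γ x hx => neg_mem γ hx) (fun b => U k t (g b)) hcov A Γ hA
      (by
        rintro b _ ⟨l, hl, rfl⟩ hlA z hz hU
        refine hmove b l hl ?_ z hz hU
        rintro ⟨x, rfl⟩
        exact hlA ⟨x, level_extend hn.det (hn.μ_ne b) (hn.μ_ne 0) n x hl, (hagree b x).symm⟩)
      γ hsup hγA z hz (by
        intro b
        fin_cases b
        · exact h0
        · exact h1)
    fin_cases b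
    · exact Or.inl hb
    · exact Or.inr hb

theorem mem_sup {H : Type} [Group H] {G : Fin 2 → Type} [∀ i, Group (G i)] (ι : ∀ i, H →* G i)
    (p : Monoid.PushoutI ι) :
    p ∈ (Monoid.PushoutI.of (φ := ι) 0).range ⊔ (Monoid.PushoutI.of (φ := ι) 1).range := by
  induction p using Monoid.PushoutI.induction_on with
  | of i γ =>
    fin_cases i
    · exact (le_sup_left : (Monoid.PushoutI.of (φ := ι) 0).range ≤ _) ⟨γ, rfl⟩
    · exact (le_sup_right : (Monoid.PushoutI.of (φ := ι) 1).range ≤ _) ⟨γ, rfl⟩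
  | base x =>
    exact (le_sup_left : (Monoid.PushoutI.of (φ := ι) 0).range ≤ _)
      ⟨ι 0 x, Monoid.PushoutI.of_apply_eq_base ι 0 x⟩
  | mul x y hx hy => exact mul_mem hx hy

/-- The amalgamated product of the two pieces embeds. -/
theorem rho_injective {k : ℕ} (hk : 1 ≤ k) {K : Subfield ℂ}
    {D : Matrix (Fin (k + 1)) (Fin (k + 1)) ℂ}
    {HD : Matrix (Fin (k + 1)) (Fin (k + 1)) K} {μ : Fin 2 → ℂ} {q : Fin 2 → K} (hcm : IsCM K)
    (hd : 2 < Module.finrank ℚ K) (hn : IsNF k K D HD μ q) (n : ℕ) {g : Fin 2 → SUGroup (k + 2)}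
    {X : Matrix (Fin 2) (Fin 2) ℂ} {ζ : ℂ} (hζ : star ζ * ζ = 1) (hX : Xᴴ * X = 1)
    (hg : (g 1).toMatrix = (g 0).toMatrix * (ζ • bsum X 1))
    (hang : 4 < ((n : ℝ) / 2) ^ Module.finrank ℚ K * (1 - cosAngle g) ^ 2)
    (Λ : Fin 2 → Subgroup (SUGroup (k + 1)))
    (hΛ : ∀ b, Λ b ≤ level (k + 1) K (dsum (μ b) D) n) (Γ' : Subgroup (SUGroup k))
    (hΓ' : ∀ b x, x ∈ Γ' ↔ extend k x ∈ Λ b) (ι : ∀ b, Γ' →* Λ b)
    (hι : ∀ b x, (ι b x : SUGroup (k + 1)) = extend k x)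
    (ρ : Monoid.PushoutI ι →* SUGroup (k + 2))
    (hρ : ∀ b (γ : Λ b), ρ (Monoid.PushoutI.of b γ) = g b * extend (k + 1) γ * (g b)⁻¹) :
    Function.Injective ρ := by
  obtain ⟨t, ht, hcov, hmove⟩ := exists_S hcm hd hn n hζ hX hg hang
  have hbase : ∀ x : Γ', ρ (Monoid.PushoutI.base ι x) =
      g 0 * extend (k + 1) (extend k x) * (g 0)⁻¹ := by
    intro x
    rw [← Monoid.PushoutI.of_apply_eq_base ι 0 x, hρ, hι]
  set z : Fin (k + 2 + 1) → ℂ := (g 0).toMatrix *ᵥ pt k 1 1 with hz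
  have hco : co (g 0) z = (1 : ℂ) • pt k 1 1 := by
    rw [one_smul, co, hz, mulVec_mulVec, toMatrix_inv_mul, one_mulVec]
  have hs : s2 k (pt k 1 1) = 1 := by
    rw [s2_pt hk 1 (by norm_num) (le_refl _)]
    norm_num
  have hp0 : pt k 1 1 0 = 0 := by
    show (((1 - 1) / Real.sqrt 2 : ℝ) : ℂ) = 0
    simp
  have hp1 : pt k 1 1 1 = 0 := by
    show ((1 * (1 - 1) / Real.sqrt 2 : ℝ) : ℂ) = 0
    simp
  have hzU : z ∈ U k t (g 0) ∧ z ∈ U k t (g 1) := by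
    refine mem_U hζ hX hg hco ?_ ?_
    · rw [hp1, hs]
      simp
      linarith
    · rw [hp0, hp1, hs]
      simp
      linarith
  have hzN : z ∈ Neg (k + 2) := neg_mem _ (hm_pt_one k 1)
  rw [injective_iff_map_eq_one]
  intro p hp
  by_cases hpA : p ∈ (Monoid.PushoutI.base ι).range
  · obtain ⟨x, rfl⟩ := hpA
    rw [hbase] at hp
    have h1 : extend (k + 1) (extend k (x : SUGroup k)) = 1 := by
      rwa [mul_inv_eq_one, mul_eq_left] at hp
    have h2 : (x : SUGroup k) = 1 := by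
      apply SUext
      have h3 := congrArg SUGroup.toMatrix h1
      rw [extend_toMatrix, extend_toMatrix, toMatrix_one] at h3
      ext i j
      have h4 := congrFun (congrFun h3 i.succ.succ) j.succ.succ
      rw [dsum_succ_succ, dsum_succ_succ] at h4
      rw [h4, toMatrix_one, Matrix.one_apply, Matrix.one_apply]
      simp only [Fin.succ_inj]
    have h3 : x = 1 := Subtype.ext h2
    rw [h3, map_one]
  · exfalso
    have hsup := mem_sup ι p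
    obtain ⟨b, hb⟩ := pp (fun (γ : Monoid.PushoutI ι) z => (ρ γ).toMatrix *ᵥ z)
      (fun a b x => by
        show (ρ (a * b)).toMatrix *ᵥ x = (ρ a).toMatrix *ᵥ ((ρ b).toMatrix *ᵥ x)
        rw [map_mul, toMatrix_mul, mulVec_mulVec])
      (Neg (k + 2)) (fun γ x hx => neg_mem _ hx) (fun b => U k t (g b)) hcov
      (Monoid.PushoutI.base ι).range (fun b => (Monoid.PushoutI.of (φ := ι) b).range)
      (by
        rintro b _ ⟨x, rfl⟩
        exact ⟨ι b x, Monoid.PushoutI.of_apply_eq_base ι b x⟩)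
      (by
        rintro b _ ⟨l, rfl⟩ hlA z hz hU
        show (ρ (Monoid.PushoutI.of b l)).toMatrix *ᵥ z ∉ U k t (g b)
        rw [hρ]
        refine hmove b l (hΛ b l.2) ?_ z hz hU
        rintro ⟨x, hx⟩
        have hxΓ : x ∈ Γ' := by
          rw [hΓ' b, ← hx]
          exact l.2
        refine hlA ⟨⟨x, hxΓ⟩, ?_⟩
        rw [← Monoid.PushoutI.of_apply_eq_base ι b]
        congr 1
        apply Subtype.ext
        rw [hι, hx])
      p hsup hpA z hzN (by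
        intro b
        fin_cases b
        · exact hzU.1
        · exact hzU.2)
    have hb' : (ρ p).toMatrix *ᵥ z ∉ U k t (g b) := hb
    rw [hp, toMatrix_one, one_mulVec] at hb'
    fin_cases b
    · exact hb' hzU.1
    · exact hb' hzU.2

/-- The two maps `place` define a homomorphism on the amalgamated product. -/
theorem exists_rho {k : ℕ} {g : Fin 2 → SUGroup (k + 2)} {X : Matrix (Fin 2) (Fin 2) ℂ}
    {ζ : ℂ} (hg : (g 1).toMatrix = (g 0).toMatrix * (ζ • bsum X 1))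
    (Λ : Fin 2 → Subgroup (SUGroup (k + 1))) (Γ' : Subgroup (SUGroup k))
    (ι : ∀ b, Γ' →* Λ b) (hι : ∀ b x, (ι b x : SUGroup (k + 1)) = extend k x) :
    ∃ ρ : Monoid.PushoutI ι →* SUGroup (k + 2),
      ∀ b (γ : Λ b), ρ (Monoid.PushoutI.of b γ) = place (g b) (Λ b) γ := by
  refine ⟨Monoid.PushoutI.lift (fun b => place (g b) (Λ b)) ((place (g 0) (Λ 0)).comp (ι 0))
    (fun b => ?_), fun b γ => Monoid.PushoutI.lift_of _ _ _ _⟩
  refine MonoidHom.ext fun x => ?_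
  have h : ∀ b, place (g b) (Λ b) (ι b x) = g b * extend (k + 1) (extend k x) * (g b)⁻¹ := by
    intro b
    show g b * extend (k + 1) (ι b x) * (g b)⁻¹ = _
    rw [hι]
  show place (g b) (Λ b) (ι b x) = place (g 0) (Λ 0) (ι 0 x)
  rw [h, h]
  fin_cases b
  · rfl
  · exact agree_all hg x

theorem main (k : ℕ) (hk : 1 ≤ k) (Γ₃ : Subgroup (SUGroup k)) (h₃ : IsLattice Γ₃)
    (K : Subfield ℂ) (hd : 2 < Module.finrank ℚ K)
    (H : Fin 2 → Matrix (Fin (k + 1 + 1)) (Fin (k + 1 + 1)) K)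
    (B : Fin 2 → Matrix (Fin (k + 1 + 1)) (Fin (k + 1 + 1)) ℂ)
    (hf : ∀ b, IsForm (k + 1) K (H b) (B b))
    (hr : ∀ b, ∀ γ ∈ Γ₃, EntriesIn K (B b) (extend k γ).toMatrix) :
    ∃ c : ℕ, 1 ≤ c ∧ (Split B → c = 1) ∧
      ∀ (n : ℕ) (g : Fin 2 → SUGroup (k + 2)), Agree Γ₃ g →
        4 < ((n : ℝ) / 2) ^ Module.finrank ℚ K * (1 - cosAngle g) ^ 2 →
        ∀ Λ : Fin 2 → Subgroup (SUGroup (k + 1)), (∀ b, Λ b ≤ level (k + 1) K (B b) (c * n)) →
          NoLattice (hybrid Λ g) ∧ Embeds Λ g := by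
  obtain ⟨c, D, HD, μ, q, hc, hc1, hn, hlev⟩ := exists_nf hk Γ₃ h₃ K H B hf hr
  refine ⟨c, hc, hc1, fun n g hag hang Λ hΛ => ?_⟩
  obtain ⟨X, ζ, hζ, hX, hg⟩ := frame hk Γ₃ h₃ g hag
  have hcm : IsCM K := (hf 0).cm
  have hΛ' : ∀ b, Λ b ≤ level (k + 1) K (dsum (μ b) D) n := fun b => (hΛ b).trans (hlev b n)
  exact ⟨fun Δ hΔ => no_sublattice hk hcm hd hn n hζ hX hg hang Λ hΛ' Δ hΔ,
    fun Γ' hΓ' ι hι => by
      obtain ⟨ρ, hρ⟩ := exists_rho hg Λ Γ' ι hι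
      exact ⟨ρ, hρ, rho_injective hk hcm hd hn n hζ hX hg hang Λ hΛ' Γ' hΓ' ι hι ρ hρ⟩⟩

end Pool.Agent.Lib.MP_5d4057_al.Comb
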