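import Pool.Agent.Lib.MP_5d4057_al.Comb.Geo

/-!
# Groups which move the common neighbourhood off itself are not lattices
-/

namespace Pool.Agent.Lib.MP_5d4057_al.Comb

open Matrix Pool.Agent.Lib.MP_5d4057_al Pool.Agent.Lib.MP_5d4057_al.Hyb ComplexOrder Topology

theorem s2_formula (k : ℕ) (v : Fin (k + 2 + 1) → ℂ) :
    s2 k v = ‖v (Fin.last k).succ.succ‖ ^ 2 - ∑ i : Fin k, ‖v i.castSucc.succ.succ‖ ^ 2 := by
  rw [s2, hm_self_re]
  ring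

theorem s2_smul (k : ℕ) (c : ℂ) (v : Fin (k + 2 + 1) → ℂ) : s2 k (c • v) = ‖c‖ ^ 2 * s2 k v := by
  rw [s2_formula, s2_formula, mul_sub, Finset.mul_sum]
  simp only [Pi.smul_apply, smul_eq_mul, norm_mul, mul_pow]

theorem continuous_s2 (k : ℕ) : Continuous (s2 k) := by
  have h : s2 k = fun v => ‖v (Fin.last k).succ.succ‖ ^ 2 -
      ∑ i : Fin k, ‖v i.castSucc.succ.succ‖ ^ 2 := funext (s2_formula k)
  rw [h]
  fun_prop

theorem s2_extend {k : ℕ} (x : SUGroup k) (v : Fin (k + 2 + 1) → ℂ) :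
    s2 k ((extend (k + 1) (extend k x)).toMatrix *ᵥ v) = s2 k v := by
  rw [extend_mulVec, extend_mulVec, s2, s2]
  have h : (fun i : Fin (k + 1) => (Fin.cons (v 0) (Fin.cons (v (Fin.succ 0))
      (x.toMatrix *ᵥ fun i : Fin (k + 1) => v i.succ.succ) : Fin (k + 1 + 1) → ℂ) :
      Fin (k + 2 + 1) → ℂ) i.succ.succ) = x.toMatrix *ᵥ fun i : Fin (k + 1) => v i.succ.succ := by
    ext i
    rfl
  rw [h, hm_mulVec]

/-- the component in `ℂ^{k,1}` of `pt` -/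
noncomputable def wv (k : ℕ) (r : ℝ) : Fin (k + 1) → ℂ :=
  fun i => if i = Fin.last k then 1 else if i = 0 then -(r : ℂ) else 0

/-- an arc from a point of the hyperplane to an ideal point -/
noncomputable def pt (k : ℕ) (ε v : ℝ) : Fin (k + 2 + 1) → ℂ :=
  Fin.cons (((1 - v) / Real.sqrt 2 : ℝ) : ℂ) (Fin.cons ((ε * (1 - v) / Real.sqrt 2 : ℝ) : ℂ)
    (wv k (Real.sqrt (2 * v * (1 - v)))))

theorem continuous_pt (k : ℕ) (ε : ℝ) : Continuous (pt k ε) := by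
  refine continuous_pi fun i => ?_
  refine Fin.cases ?_ (fun i => Fin.cases ?_ (fun i => ?_) i) i
  · show Continuous fun v : ℝ => (((1 - v) / Real.sqrt 2 : ℝ) : ℂ)
    fun_prop
  · show Continuous fun v : ℝ => ((ε * (1 - v) / Real.sqrt 2 : ℝ) : ℂ)
    fun_prop
  · show Continuous fun v : ℝ => wv k (Real.sqrt (2 * v * (1 - v))) i
    unfold wv
    split_ifs
    · exact continuous_const
    · fun_prop
    · exact continuous_const

theorem s2_pt {k : ℕ} (hk : 1 ≤ k) (ε : ℝ) {v : ℝ} (h0 : 0 ≤ v) (h1 : v ≤ 1) :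
    s2 k (pt k ε v) = v ^ 2 + (1 - v) ^ 2 := by
  have e1 : ∀ i : Fin (k + 1), pt k ε v i.succ.succ = wv k (Real.sqrt (2 * v * (1 - v))) i :=
    fun i => rfl
  rw [s2_formula]
  simp only [e1]
  obtain ⟨j, rfl⟩ : ∃ j, k = j + 1 := ⟨k - 1, by omega⟩
  rw [Fin.sum_univ_succ]
  have e2 : ∀ i : Fin j, wv (j + 1) (Real.sqrt (2 * v * (1 - v))) i.succ.castSucc = 0 := by
    intro i
    unfold wv
    rw [if_neg (Fin.castSucc_lt_last _).ne, if_neg]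
    rw [← Fin.succ_castSucc]
    exact Fin.succ_ne_zero _
  have e3 : wv (j + 1) (Real.sqrt (2 * v * (1 - v))) (Fin.castSucc 0) =
      -((Real.sqrt (2 * v * (1 - v)) : ℝ) : ℂ) := by
    unfold wv
    rw [if_neg (Fin.castSucc_lt_last _).ne, if_pos Fin.castSucc_zero]
  have e4 : wv (j + 1) (Real.sqrt (2 * v * (1 - v))) (Fin.last (j + 1)) = 1 := by
    unfold wv
    rw [if_pos rfl]
  simp only [e2, e3, e4, norm_zero, norm_one, norm_neg, Complex.norm_real, Real.norm_eq_abs,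
    sq_abs]
  rw [Real.sq_sqrt (by nlinarith [mul_nonneg h0 (sub_nonneg.2 h1)])]
  simp
  ring

theorem pt_succ (k : ℕ) (ε v : ℝ) :
    ‖pt k ε v 0‖ ^ 2 = (1 - v) ^ 2 / 2 ∧ ‖pt k ε v 1‖ ^ 2 = ε ^ 2 * (1 - v) ^ 2 / 2 := by
  have h2 : Real.sqrt 2 ^ 2 = 2 := Real.sq_sqrt (by norm_num)
  constructor
  · show ‖(((1 - v) / Real.sqrt 2 : ℝ) : ℂ)‖ ^ 2 = _
    rw [Complex.norm_real, Real.norm_eq_abs, sq_abs, div_pow, h2]
  · show ‖((ε * (1 - v) / Real.sqrt 2 : ℝ) : ℂ)‖ ^ 2 = _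
    rw [Complex.norm_real, Real.norm_eq_abs, sq_abs, div_pow, h2, mul_pow]

theorem T_mulVec {m : ℕ} (w x y : Fin (m + 1) → ℂ) :
    T m w x *ᵥ y = y + hm m w y • x - hm m x y • w -
      ((1 / 2 : ℂ) * hm m x x * hm m w y) • w := by
  rw [T, sub_mulVec, sub_mulVec, add_mulVec, one_mulVec, smul_mulVec, rk_mulVec, rk_mulVec,
    rk_mulVec, smul_smul]

/-- the direction of the translation -/
noncomputable def xh (k : ℕ) : Fin (k + 2 + 1) → ℂ :=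
  Fin.cons 0 (Fin.cons 0 (fun i => if i = 0 then 1 else 0))

theorem hm_single {k : ℕ} (i j : Fin (k + 1)) :
    hm k (fun a => if a = i then 1 else 0) (fun a => if a = j then 1 else 0) = J k i j := by
  rw [hm, dotProduct]
  simp [Matrix.mulVec, dotProduct]

theorem wv_zero (k : ℕ) : wv k 0 = fun i => if i = Fin.last k then 1 else 0 := by
  funext i
  unfold wv
  simp

theorem hm_facts {k : ℕ} (hk : 1 ≤ k) {ε : ℝ} (hε : ε ^ 2 = 1) :
    hm (k + 2) (pt k ε 0) (pt k ε 0) = 0 ∧ hm (k + 2) (pt k ε 0) (xh k) = 0 ∧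
    hm (k + 2) (pt k ε 0) (pt k ε 1) = -1 ∧ hm (k + 2) (xh k) (pt k ε 1) = 0 ∧
    hm (k + 2) (xh k) (xh k) = 1 := by
  have hne : (0 : Fin (k + 1)) ≠ Fin.last k := by
    intro h
    have := congrArg Fin.val h
    simp at this
    omega
  have hJ0 : J k 0 0 = 1 := by rw [J, Matrix.diagonal_apply_eq, if_neg hne]
  have hJl : J k (Fin.last k) (Fin.last k) = -1 := by rw [J, Matrix.diagonal_apply_eq, if_pos rfl]
  have hJ1 : J k 0 (Fin.last k) = 0 := Matrix.diagonal_apply_ne _ hne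
  have hJ2 : J k (Fin.last k) 0 = 0 := Matrix.diagonal_apply_ne _ hne.symm
  have h2 : ((Real.sqrt 2 : ℝ) : ℂ) * ((Real.sqrt 2 : ℝ) : ℂ) = 2 := by
    rw [← Complex.ofReal_mul, Real.mul_self_sqrt (by norm_num)]
    norm_num
  have h20 : ((Real.sqrt 2 : ℝ) : ℂ) ≠ 0 := by
    intro h
    rw [h, mul_zero] at h2
    norm_num at h2
  have hεc : (ε : ℂ) ^ 2 = 1 := by exact_mod_cast hε
  have p0 : pt k ε 0 = Fin.cons ((1 / Real.sqrt 2 : ℝ) : ℂ) (Fin.cons ((ε / Real.sqrt 2 : ℝ) : ℂ)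
      (fun i => if i = Fin.last k then 1 else 0)) := by
    rw [pt]
    simp only [mul_zero, Real.sqrt_zero, sub_zero, mul_one, wv_zero]
  have p1 : pt k ε 1 = Fin.cons 0 (Fin.cons 0 (fun i => if i = Fin.last k then 1 else 0)) := by
    rw [pt]
    simp only [sub_self, mul_zero, Real.sqrt_zero, zero_div, Complex.ofReal_zero, wv_zero]
  rw [p0, p1, xh]
  simp only [hm_cons, hm_single, hJ0, hJl, hJ1, hJ2]
  refine ⟨?_, ?_, ?_, ?_, ?_⟩
  · simp only [RCLike.star_def, Complex.conj_ofReal]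
    push_cast
    field_simp
    linear_combination hεc - h2 / 1
  · simp
  · simp
  · simp
  · simp

theorem T_pt {k : ℕ} (hk : 1 ≤ k) {ε : ℝ} (hε : ε ^ 2 = 1) (n : ℕ) :
    T (k + 2) (pt k ε 0) ((n : ℂ) • xh k) *ᵥ pt k ε 1 =
      ((1 + n ^ 2 / 2 : ℝ) : ℂ) • pt k ε (1 / (1 + (n : ℝ) ^ 2 / 2)) := by
  obtain ⟨f1, f2, f3, f4, f5⟩ := hm_facts hk hε
  rw [T_mulVec, hm_smul_left, hm_smul_left, hm_smul_right, f3, f4, f5]
  have hc : (0 : ℝ) < 1 + (n : ℝ) ^ 2 / 2 := by positivity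
  set c : ℝ := 1 + (n : ℝ) ^ 2 / 2 with hcdef
  have hcc : (c : ℂ) ≠ 0 := by exact_mod_cast hc.ne'
  have h1v : 1 - 1 / c = ((n : ℝ) ^ 2 / 2) / c := by
    field_simp
    rw [hcdef]
    ring
  have hsq : Real.sqrt (2 * (1 / c) * (1 - 1 / c)) = n / c := by
    rw [h1v]
    have : 2 * (1 / c) * ((n : ℝ) ^ 2 / 2 / c) = (n / c) ^ 2 := by
      field_simp
    rw [this]
    exact Real.sqrt_sq (by positivity)
  have hne : (0 : Fin (k + 1)) ≠ Fin.last k := by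
    intro h
    have := congrArg Fin.val h
    simp at this
    omega
  ext i
  simp only [Pi.add_apply, Pi.sub_apply, Pi.smul_apply, smul_eq_mul, star_natCast]
  refine Fin.cases ?_ (fun i => Fin.cases ?_ (fun i => ?_) i) i
  · have e1 : pt k ε 1 0 = 0 := by
      show (((1 - 1) / Real.sqrt 2 : ℝ) : ℂ) = 0
      simp
    have e2 : pt k ε 0 0 = ((1 / Real.sqrt 2 : ℝ) : ℂ) := by
      show (((1 - 0) / Real.sqrt 2 : ℝ) : ℂ) = _
      simp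
    have e3 : pt k ε (1 / c) 0 = (((1 - 1 / c) / Real.sqrt 2 : ℝ) : ℂ) := rfl
    have e4 : xh k 0 = 0 := rfl
    rw [e1, e2, e3, e4, h1v]
    push_cast
    field_simp
    ring
  · have e1 : pt k ε 1 (Fin.succ 0) = 0 := by
      show ((ε * (1 - 1) / Real.sqrt 2 : ℝ) : ℂ) = 0
      simp
    have e2 : pt k ε 0 (Fin.succ 0) = ((ε / Real.sqrt 2 : ℝ) : ℂ) := by
      show ((ε * (1 - 0) / Real.sqrt 2 : ℝ) : ℂ) = _
      simp
    have e3 : pt k ε (1 / c) (Fin.succ 0) = ((ε * (1 - 1 / c) / Real.sqrt 2 : ℝ) : ℂ) := rfl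
    have e4 : xh k (Fin.succ 0) = 0 := rfl
    rw [e1, e2, e3, e4, h1v]
    push_cast
    field_simp
    ring
  · have e1 : pt k ε 1 i.succ.succ = if i = Fin.last k then 1 else 0 := by
      show wv k (Real.sqrt (2 * 1 * (1 - 1))) i = _
      rw [sub_self, mul_zero, Real.sqrt_zero, wv_zero]
    have e2 : pt k ε 0 i.succ.succ = if i = Fin.last k then 1 else 0 := by
      show wv k (Real.sqrt (2 * 0 * (1 - 0))) i = _
      rw [mul_zero, zero_mul, Real.sqrt_zero, wv_zero]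
    have e3 : pt k ε (1 / c) i.succ.succ = wv k (n / c) i := by
      show wv k (Real.sqrt (2 * (1 / c) * (1 - 1 / c))) i = _
      rw [hsq]
    have e4 : xh k i.succ.succ = if i = 0 then 1 else 0 := rfl
    rw [e1, e2, e3, e4]
    unfold wv
    by_cases h1 : i = Fin.last k
    · rw [if_pos h1, if_pos h1, if_neg (fun h => hne (h.symm.trans h1)), hcdef]
      push_cast
      ring
    · rw [if_neg h1, if_neg h1]
      by_cases h2 : i = 0
      · rw [if_pos h2, if_pos h2]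
        push_cast
        field_simp
        ring
      · rw [if_neg h2, if_neg h2]
        ring

theorem exists_eps (a b : ℂ) (hab : star a * a + star b * b = 1) :
    ∃ ε : ℝ, ε ^ 2 = 1 ∧ ‖star a + star b * ε‖ ^ 2 ≤ 1 := by
  have h1 : ‖a‖ ^ 2 + ‖b‖ ^ 2 = 1 := by
    have h2 := congrArg Complex.re hab
    rw [Complex.add_re, star_mul_self_re, star_mul_self_re] at h2
    exact h2
  have key : ∀ ε : ℝ, ε ^ 2 = 1 → ‖star a + star b * ε‖ ^ 2 =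
      1 + 2 * ε * (star a * b).re := by
    intro ε hε
    rw [Complex.sq_norm, Complex.normSq_add, ← Complex.sq_norm, ← Complex.sq_norm, norm_mul,
      norm_star, norm_star, Complex.norm_real, Real.norm_eq_abs, mul_pow, sq_abs, hε, mul_one, h1]
    congr 1
    simp only [RCLike.star_def, map_mul, Complex.conj_conj, Complex.conj_ofReal]
    rw [← mul_assoc, Complex.mul_re, Complex.ofReal_re, Complex.ofReal_im]
    ring
  rcases le_total (star a * b).re 0 with h | h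
  · refine ⟨1, by norm_num, ?_⟩
    rw [key 1 (by norm_num)]
    linarith
  · refine ⟨-1, by norm_num, ?_⟩
    rw [key (-1) (by norm_num)]
    linarith

/-- membership in both neighbourhoods in the coordinates of the first frame -/
theorem mem_U {k : ℕ} {g : Fin 2 → SUGroup (k + 2)} {X : Matrix (Fin 2) (Fin 2) ℂ} {ζ : ℂ}
    (hζ : star ζ * ζ = 1) (hX : Xᴴ * X = 1)
    (hg : (g 1).toMatrix = (g 0).toMatrix * (ζ • bsum X 1)) {t : ℝ} {z : Fin (k + 2 + 1) → ℂ}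
    {c : ℂ} {y : Fin (k + 2 + 1) → ℂ} (hz : co (g 0) z = c • y) (h0 : ‖y 1‖ ^ 2 < t * s2 k y)
    (h1 : ‖star (X 0 1) * y 0 + star (X 1 1) * y 1‖ ^ 2 < t * s2 k y) :
    z ∈ U k t (g 0) ∧ z ∈ U k t (g 1) := by
  obtain ⟨e1, e2⟩ := co_one hζ hX hg z
  have hζ1 : ‖ζ‖ = 1 := by
    have h2 := congrArg norm hζ
    rw [norm_mul, norm_star, norm_one] at h2
    nlinarith [norm_nonneg ζ]
  have hc : 0 ≤ ‖c‖ ^ 2 := sq_nonneg _
  constructor
  · show ‖co (g 0) z 1‖ ^ 2 ≤ t * s2 k (co (g 0) z)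
    rw [hz, s2_smul, Pi.smul_apply, smul_eq_mul, norm_mul, mul_pow]
    nlinarith
  · show ‖co (g 1) z 1‖ ^ 2 ≤ t * s2 k (co (g 1) z)
    rw [e1, e2, hz, s2_smul, norm_mul, norm_star, hζ1, one_mul, Pi.smul_apply, Pi.smul_apply,
      smul_eq_mul, smul_eq_mul]
    have h3 : star (X 0 1) * (c * y 0) + star (X 1 1) * (c * y 1) =
        c * (star (X 0 1) * y 0 + star (X 1 1) * y 1) := by ring
    rw [h3, norm_mul, mul_pow]
    nlinarith

theorem hm_pt_one (k : ℕ) (ε : ℝ) :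
    (hm (k + 2) (pt k ε 1) (pt k ε 1)).re < 0 := by
  have hJl : J k (Fin.last k) (Fin.last k) = -1 := by rw [J, Matrix.diagonal_apply_eq, if_pos rfl]
  have p1 : pt k ε 1 = Fin.cons 0 (Fin.cons 0 (fun i => if i = Fin.last k then 1 else 0)) := by
    rw [pt]
    simp only [sub_self, mul_zero, Real.sqrt_zero, zero_div, Complex.ofReal_zero, wv_zero]
  rw [p1, hm_cons, hm_cons, hm_single, hJl]
  simp

/-- the pairs `(u, v)` such that `u` moves the point `pt k ε v` only a little -/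
def OS (k : ℕ) (a b : ℂ) (t ε : ℝ) : Set (SUGroup (k + 2) × ℝ) := {p |
    ‖(p.1.toMatrix *ᵥ pt k ε p.2) 1‖ ^ 2 < t * s2 k (p.1.toMatrix *ᵥ pt k ε p.2) ∧
    ‖star a * (p.1.toMatrix *ᵥ pt k ε p.2) 0 +
      star b * (p.1.toMatrix *ᵥ pt k ε p.2) 1‖ ^ 2 <
      t * s2 k (p.1.toMatrix *ᵥ pt k ε p.2) ∧
    19 / 20 * s2 k (pt k ε p.2) < s2 k (p.1.toMatrix *ᵥ pt k ε p.2) ∧
    s2 k (p.1.toMatrix *ᵥ pt k ε p.2) < 21 / 20 * s2 k (pt k ε p.2)}

theorem OS_open (k : ℕ) (a b : ℂ) (t ε : ℝ) : IsOpen (OS k a b t ε) := by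
  have hcm : Continuous fun p : SUGroup (k + 2) × ℝ => p.1.toMatrix *ᵥ pt k ε p.2 :=
    ((continuous_toMatrix (k + 2)).comp continuous_fst).matrix_mulVec
      ((continuous_pt k ε).comp continuous_snd)
  have hc2 : Continuous fun p : SUGroup (k + 2) × ℝ => s2 k (p.1.toMatrix *ᵥ pt k ε p.2) :=
    (continuous_s2 k).comp hcm
  have hc3 : Continuous fun p : SUGroup (k + 2) × ℝ => s2 k (pt k ε p.2) :=
    (continuous_s2 k).comp ((continuous_pt k ε).comp continuous_snd)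
  have hci : ∀ i, Continuous fun p : SUGroup (k + 2) × ℝ => (p.1.toMatrix *ᵥ pt k ε p.2) i :=
    fun i => (continuous_apply i).comp hcm
  exact (isOpen_lt ((hci 1).norm.pow 2) (hc2.const_mul t)).inter
      ((isOpen_lt (((((hci 0).const_mul _).add ((hci 1).const_mul _)).norm).pow 2)
        (hc2.const_mul t)).inter
        ((isOpen_lt (hc3.const_mul _) hc2).inter (isOpen_lt hc2 (hc3.const_mul _))))

theorem OS_one {k : ℕ} (hk : 1 ≤ k) {a b : ℂ} {t ε : ℝ} (ht : 1 / 2 < t) (hε : ε ^ 2 = 1)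
    (hε1 : ‖star a + star b * ε‖ ^ 2 ≤ 1) (v : ℝ) (hv0 : 0 ≤ v) (hv1 : v ≤ 1) :
    ((1 : SUGroup (k + 2)), v) ∈ OS k a b t ε := by
  have hs := s2_pt hk ε hv0 hv1
  have hspos : 0 < v ^ 2 + (1 - v) ^ 2 := by nlinarith [sq_nonneg (2 * v - 1)]
  have hsge : (1 - v) ^ 2 ≤ v ^ 2 + (1 - v) ^ 2 := by nlinarith [sq_nonneg v]
  have e1 : (1 : SUGroup (k + 2)).toMatrix *ᵥ pt k ε v = pt k ε v := by
    rw [toMatrix_one, one_mulVec]
  have hA : ‖star a * pt k ε v 0 + star b * pt k ε v 1‖ ^ 2 ≤ (1 - v) ^ 2 / 2 := by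
    have e2 : star a * pt k ε v 0 + star b * pt k ε v 1 =
        (((1 - v) / Real.sqrt 2 : ℝ) : ℂ) * (star a + star b * ε) := by
      have e3 : pt k ε v 0 = (((1 - v) / Real.sqrt 2 : ℝ) : ℂ) := rfl
      have e4 : pt k ε v 1 = ((ε * (1 - v) / Real.sqrt 2 : ℝ) : ℂ) := rfl
      rw [e3, e4]
      push_cast
      ring
    have h2 : Real.sqrt 2 ^ 2 = 2 := Real.sq_sqrt (by norm_num)
    rw [e2, norm_mul, mul_pow, Complex.norm_real, Real.norm_eq_abs, sq_abs, div_pow, h2]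
    have h3 : 0 ≤ (1 - v) ^ 2 / 2 := by positivity
    calc (1 - v) ^ 2 / 2 * ‖star a + star b * (ε : ℂ)‖ ^ 2 ≤ (1 - v) ^ 2 / 2 * 1 :=
          mul_le_mul_of_nonneg_left hε1 h3
      _ = _ := mul_one _
  have hB : ‖pt k ε v 1‖ ^ 2 = (1 - v) ^ 2 / 2 := by
    rw [(pt_succ k ε v).2, hε, one_mul]
  have hlt : (1 - v) ^ 2 / 2 < t * (v ^ 2 + (1 - v) ^ 2) := by nlinarith
  have c1 : ‖((1 : SUGroup (k + 2)).toMatrix *ᵥ pt k ε v) 1‖ ^ 2 <
      t * s2 k ((1 : SUGroup (k + 2)).toMatrix *ᵥ pt k ε v) := by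
    rw [e1, hs, hB]
    exact hlt
  have c2 : ‖star a * ((1 : SUGroup (k + 2)).toMatrix *ᵥ pt k ε v) 0 +
      star b * ((1 : SUGroup (k + 2)).toMatrix *ᵥ pt k ε v) 1‖ ^ 2 <
      t * s2 k ((1 : SUGroup (k + 2)).toMatrix *ᵥ pt k ε v) := by
    rw [e1, hs]
    exact lt_of_le_of_lt hA hlt
  have c3 : 19 / 20 * s2 k (pt k ε v) < s2 k ((1 : SUGroup (k + 2)).toMatrix *ᵥ pt k ε v) := by
    rw [e1, hs]
    linarith
  have c4 : s2 k ((1 : SUGroup (k + 2)).toMatrix *ᵥ pt k ε v) < 21 / 20 * s2 k (pt k ε v) := by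
    rw [e1, hs]
    linarith
  exact ⟨c1, c2, c3, c4⟩

theorem OS_tube {k : ℕ} (hk : 1 ≤ k) {a b : ℂ} {t ε : ℝ} (ht : 1 / 2 < t) (hε : ε ^ 2 = 1)
    (hε1 : ‖star a + star b * ε‖ ^ 2 ≤ 1) : ∃ N' : Set (SUGroup (k + 2)), IsOpen N' ∧ 1 ∈ N' ∧
    ∀ u ∈ N', ∀ v ∈ Set.Icc (0 : ℝ) 1, (u, v) ∈ OS k a b t ε := by
  have hsub : ({1} : Set (SUGroup (k + 2))) ×ˢ Set.Icc (0 : ℝ) 1 ⊆ OS k a b t ε := by
    rintro ⟨u, v⟩ ⟨hu, hv⟩
    have hu1 : u = 1 := hu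
    rw [hu1]
    exact OS_one hk ht hε hε1 v hv.1 hv.2
  obtain ⟨N', V, hN', -, h1N', hV, hNV⟩ := generalized_tube_lemma isCompact_singleton
    (isCompact_Icc (a := (0 : ℝ)) (b := 1)) (OS_open k a b t ε) hsub
  exact ⟨N', hN', h1N' rfl, fun u hu v hv => hNV ⟨hu, hV hv⟩⟩

theorem co_conj {m : ℕ} (g u : SUGroup m) (y : Fin (m + 1) → ℂ) :
    co g ((u⁻¹).toMatrix *ᵥ (g.toMatrix *ᵥ y)) = (g⁻¹ * u⁻¹ * g).toMatrix *ᵥ y := by
  rw [co, mulVec_mulVec, mulVec_mulVec, toMatrix_mul, toMatrix_mul, Matrix.mul_assoc]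

theorem gam_mulVec {m : ℕ} (g u1 u2 h : SUGroup m) (n : ℕ) (y y' : Fin (m + 1) → ℂ)
    (hy : h.toMatrix ^ n *ᵥ y = y') :
    (u2⁻¹ * (g * h * g⁻¹) ^ n * u1).toMatrix *ᵥ ((u1⁻¹).toMatrix *ᵥ (g.toMatrix *ᵥ y)) =
      (u2⁻¹).toMatrix *ᵥ (g.toMatrix *ᵥ y') := by
  have e1 : u2⁻¹ * (g * h * g⁻¹) ^ n * u1 * u1⁻¹ * g = u2⁻¹ * g * h ^ n := by
    rw [conj_pow]
    group
  have e2 := congrArg SUGroup.toMatrix e1
  rw [toMatrix_mul, toMatrix_mul _ (u1⁻¹), toMatrix_mul _ (h ^ n), toMatrix_mul (u2⁻¹) (g),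
    toMatrix_pow] at e2
  rw [mulVec_mulVec, mulVec_mulVec, e2, ← mulVec_mulVec, hy, mulVec_mulVec]

theorem open_conj {G : Type} [Group G] [TopologicalSpace G] [IsTopologicalGroup G] (g : G)
    (N' : Set G) (hN' : IsOpen N') (h1 : 1 ∈ N') :
    IsOpen {u : G | g⁻¹ * u⁻¹ * g ∈ N'} ∧ 1 ∈ {u : G | g⁻¹ * u⁻¹ * g ∈ N'} := by
  constructor
  · have : Continuous fun u : G => g⁻¹ * u⁻¹ * g := by fun_prop
    exact hN'.preimage this
  · show g⁻¹ * 1⁻¹ * g ∈ N'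
    have : g⁻¹ * 1⁻¹ * g = 1 := by group
    rw [this]
    exact h1

theorem final_ineq {c n A B C : ℝ} (hn : 1 ≤ n) (hc : c = 1 + n ^ 2 / 2)
    (e2 : c ^ 2 * A = B) (e3 : B < 21 / 20 * C) (hC : C = 1)
    (e4 : 19 / 20 * ((1 / c) ^ 2 + (1 - 1 / c) ^ 2) < A) : False := by
  have hcpos : 0 < c := by rw [hc]; positivity
  have e5 : c ^ 2 * ((1 / c) ^ 2 + (1 - 1 / c) ^ 2) = 1 + n ^ 4 / 4 := by
    have : c ^ 2 * ((1 / c) ^ 2 + (1 - 1 / c) ^ 2) = 1 + (c - 1) ^ 2 := by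
      field_simp
    rw [this, hc]
    ring
  have e6 : (1 : ℝ) ≤ n ^ 4 := one_le_pow₀ hn
  have e7 : c ^ 2 * (19 / 20 * ((1 / c) ^ 2 + (1 - 1 / c) ^ 2)) < c ^ 2 * A :=
    mul_lt_mul_of_pos_left e4 (by positivity)
  have e8 : c ^ 2 * (19 / 20 * ((1 / c) ^ 2 + (1 - 1 / c) ^ 2)) = 19 / 20 * (1 + n ^ 4 / 4) := by
    rw [← e5]
    ring
  rw [e8, e2] at e7
  rw [hC] at e3
  linarith

theorem no_lattice {k : ℕ} (hk : 1 ≤ k) {g : Fin 2 → SUGroup (k + 2)}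
    {X : Matrix (Fin 2) (Fin 2) ℂ} {ζ : ℂ} (hζ : star ζ * ζ = 1) (hX : Xᴴ * X = 1)
    (hg : (g 1).toMatrix = (g 0).toMatrix * (ζ • bsum X 1)) {t : ℝ} (ht : 1 / 2 < t)
    (Δ : Subgroup (SUGroup (k + 2)))
    (hΔ : ∀ γ ∈ Δ, (∃ x : SUGroup k, γ = g 0 * extend (k + 1) (extend k x) * (g 0)⁻¹) ∨
      ∀ z ∈ Neg (k + 2), z ∈ U k t (g 0) → z ∈ U k t (g 1) →
        γ.toMatrix *ᵥ z ∉ U k t (g 0) ∨ γ.toMatrix *ᵥ z ∉ U k t (g 1)) :
    ¬ IsLattice Δ := by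
  intro hlat
  have hab : star (X 0 1) * X 0 1 + star (X 1 1) * X 1 1 = 1 := by
    have h2 := congrFun (congrFun hX 1) 1
    simpa [Matrix.mul_apply, Fin.sum_univ_two] using h2
  obtain ⟨ε, hε, hε1⟩ := exists_eps _ _ hab
  obtain ⟨f1, f2, f3, f4, f5⟩ := hm_facts hk hε
  obtain ⟨N', hN', h1N', hgood⟩ := OS_tube hk ht hε hε1
  obtain ⟨hN, h1N⟩ := open_conj (g 0) N' hN' h1N'
  let Th : SUGroup (k + 2) := ofMatrix (T (k + 2) (pt k ε 0) (xh k)) (T_det _ _ f1 f2)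
    (T_pres _ _ f1 f2)
  obtain ⟨n, hn, u1, hu1, u2, hu2, hmem⟩ := recurrence Δ hlat (g 0 * Th * (g 0)⁻¹) _ hN h1N
  set c : ℝ := 1 + (n : ℝ) ^ 2 / 2 with hc
  have hcpos : 0 < c := by positivity
  have hn1 : (1 : ℝ) ≤ n := by exact_mod_cast hn
  have hTh : Th.toMatrix ^ n *ᵥ pt k ε 1 = (c : ℂ) • pt k ε (1 / c) := by
    have e5 : Th.toMatrix = T (k + 2) (pt k ε 0) (xh k) := rfl
    rw [e5, T_pow _ _ f1 f2, T_pt hk hε n]
  have hγz := gam_mulVec (g 0) u1 u2 Th n _ _ hTh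
  have hco1 := co_conj (g 0) u1 (pt k ε 1)
  have hco2 := co_conj (g 0) u2 ((c : ℂ) • pt k ε (1 / c))
  rw [← hγz, mulVec_smul] at hco2
  rw [← one_smul ℂ (((g 0)⁻¹ * u1⁻¹ * g 0).toMatrix *ᵥ pt k ε 1)] at hco1
  have hneg : (u1⁻¹).toMatrix *ᵥ ((g 0).toMatrix *ᵥ pt k ε 1) ∈ Neg (k + 2) :=
    neg_mem _ (neg_mem _ (hm_pt_one k ε))
  have hΔ1 := hΔ _ hmem
  generalize u2⁻¹ * (g 0 * Th * (g 0)⁻¹) ^ n * u1 = γ at hmem hΔ1 hγz hco2
  generalize (u1⁻¹).toMatrix *ᵥ ((g 0).toMatrix *ᵥ pt k ε 1) = z1 at hco1 hco2 hγz hneg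
  have hv1 : (1 : ℝ) ∈ Set.Icc (0 : ℝ) 1 := by constructor <;> norm_num
  have hvc : 1 / c ∈ Set.Icc (0 : ℝ) 1 := by
    constructor
    · positivity
    · rw [div_le_one hcpos]
      nlinarith
  have g1 := hgood _ hu1 1 hv1
  have g2 := hgood _ hu2 (1 / c) hvc
  obtain ⟨m10, m11⟩ := mem_U hζ hX hg hco1 g1.1 g1.2.1
  obtain ⟨m20, m21⟩ := mem_U hζ hX hg hco2 g2.1 g2.2.1
  rcases hΔ1 with ⟨x, hx⟩ | h
  · have e1 : co (g 0) (γ.toMatrix *ᵥ z1) =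
        (extend (k + 1) (extend k x)).toMatrix *ᵥ co (g 0) z1 := by
      rw [hx, co_mul]
    have e2 := congrArg (s2 k) e1
    rw [s2_extend, hco1, hco2, one_smul, s2_smul, Complex.norm_real, Real.norm_eq_abs, sq_abs] at e2
    have e3 := g1.2.2.2
    have e4 := g2.2.2.1
    rw [s2_pt hk ε hvc.1 hvc.2] at e4
    have e5 := s2_pt hk ε hv1.1 hv1.2
    exact final_ineq hn1 hc e2 e3 (by rw [e5]; norm_num) e4
  · rcases h z1 hneg m10 m11 with h | h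
    · exact h m20
    · exact h m21

end Pool.Agent.Lib.MP_5d4057_al.Comb
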